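import Pool.Agent.Q128.SSL.Lift
import Pool.Agent.Q128.SSL.Run

set_option autoImplicit false
set_option linter.unusedSectionVars false

/-! The base graph: a random lift of the complete bipartite graph. -/

namespace Pool.Agent.Q128.SSL

open Finset
open Pool.Agent.TH912.LS (ball mem_ball ball_self ball_symm ball_trans ball_mono ball_adj)

variable {d M : ℕ}

/-- the neighbours of a vertex -/
def nb (π : Fin d × Fin d → Equiv.Perm (Fin M)) : W d M → Fin d → W d M
  | Sum.inl (i, x), j => Sum.inr (j, π (i, j) x)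
  | Sum.inr (j, y), i => Sum.inl (i, (π (i, j)).symm y)

theorem nb_inj (π : Fin d × Fin d → Equiv.Perm (Fin M)) (u : W d M) :
    Function.Injective (nb π u) := by
  intro k k' h
  rcases u with ⟨i, x⟩ | ⟨j, y⟩
  · simp only [nb, Sum.inr.injEq, Prod.mk.injEq] at h
    exact h.1
  · simp only [nb, Sum.inl.injEq, Prod.mk.injEq] at h
    exact h.1

theorem nb_symm (π : Fin d × Fin d → Equiv.Perm (Fin M)) (u : W d M) (k : Fin d) :
    ∃ k', nb π (nb π u k) k' = u := by
  rcases u with ⟨i, x⟩ | ⟨j, y⟩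
  · exact ⟨i, by simp [nb]⟩
  · exact ⟨j, by simp [nb]⟩

theorem nb_ne (π : Fin d × Fin d → Equiv.Perm (Fin M)) (u : W d M) (k : Fin d) :
    nb π u k ≠ u := by
  rcases u with ⟨i, x⟩ | ⟨j, y⟩ <;> simp [nb]

/-- the lift -/
def bg (π : Fin d × Fin d → Equiv.Perm (Fin M)) : SimpleGraph (W d M) where
  Adj u v := ∃ k, nb π u k = v
  symm := ⟨by
    rintro u v ⟨k, rfl⟩
    exact nb_symm π u k⟩
  loopless := ⟨by
    rintro u ⟨k, hk⟩
    exact nb_ne π u k hk⟩

theorem bg_adj (π : Fin d × Fin d → Equiv.Perm (Fin M)) (u v : W d M) :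
    (bg π).Adj u v ↔ ∃ k, nb π u k = v := Iff.rfl

theorem bg_degree (π : Fin d × Fin d → Equiv.Perm (Fin M)) (u : W d M) :
    ((bg π).neighborSet u).ncard = d := by
  have h : (bg π).neighborSet u = ((univ : Finset (Fin d)).image (nb π u) : Finset (W d M)) := by
    ext v
    rw [SimpleGraph.mem_neighborSet, bg_adj]
    simp
  rw [h, Set.ncard_coe_finset, card_image_of_injective _ (nb_inj π u), card_univ,
    Fintype.card_fin]

/-- the number of pairs of adjacent vertices of `S`, counted twice -/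
theorem inner_pairs (π : Fin d × Fin d → Equiv.Perm (Fin M)) (S : Finset (W d M)) :
    ∑ u ∈ S, (univ.filter fun k => nb π u k ∈ S).card = 2 * inner π S := by
  have h0 : ∀ f : W d M → ℕ, ∑ u ∈ S, f u =
      ∑ p : Fin d × Fin M, (if p ∈ S.toLeft then f (Sum.inl p) else 0) +
      ∑ p : Fin d × Fin M, (if p ∈ S.toRight then f (Sum.inr p) else 0) := by
    intro f
    rw [← sum_filter, ← sum_filter, filter_mem_eq_inter, filter_mem_eq_inter, univ_inter,
      univ_inter]
    conv_lhs => rw [← toLeft_disjSum_toRight (u := S)]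
    rw [sum_disjSum]
  rw [h0]
  have h1 : ∑ p : Fin d × Fin M, (if p ∈ S.toLeft then
      (univ.filter fun k => nb π (Sum.inl p) k ∈ S).card else 0) = inner π S := by
    unfold inner hit row
    rw [Fintype.sum_prod_type, Fintype.sum_prod_type]
    refine sum_congr rfl fun i _ => ?_
    simp only [card_filter, filter_filter]
    rw [sum_comm]
    refine sum_congr rfl fun x _ => ?_
    simp only [nb, mem_toLeft, mem_toRight, mem_filter, mem_univ, true_and]
    split_ifs with h
    · refine sum_congr rfl fun j _ => ?_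
      simp [h]
    · symm
      refine sum_eq_zero fun j _ => ?_
      simp [h]
  have h2 : ∑ p : Fin d × Fin M, (if p ∈ S.toRight then
      (univ.filter fun k => nb π (Sum.inr p) k ∈ S).card else 0) = inner π S := by
    unfold inner hit row
    rw [Fintype.sum_prod_type, Fintype.sum_prod_type, sum_comm]
    conv_rhs => rw [sum_comm]
    rw [sum_comm]
    refine sum_congr rfl fun j _ => ?_
    have h3 : ∀ i : Fin d, ((univ.filter fun x : Fin M => (i, x) ∈ S.toLeft).filter
        fun x => π (i, j) x ∈ univ.filter fun y : Fin M => (j, y) ∈ S.toRight).card =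
        ∑ y : Fin M, if Sum.inr (j, y) ∈ S ∧ Sum.inl (i, (π (i, j)).symm y) ∈ S then 1 else 0 := by
      intro i
      rw [filter_filter, card_filter, ← Equiv.sum_comp (π (i, j)).symm]
      refine sum_congr rfl fun y _ => ?_
      simp only [mem_toLeft, mem_toRight, mem_filter, mem_univ, true_and, Equiv.apply_symm_apply]
      congr 1
      rw [and_comm]
    rw [sum_congr rfl fun i _ => h3 i, sum_comm]
    refine sum_congr rfl fun y _ => ?_
    simp only [nb, mem_toRight, card_filter]
    split_ifs with h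
    · refine sum_congr rfl fun i _ => ?_
      simp [h]
    · symm
      refine sum_eq_zero fun i _ => ?_
      simp [h]
  rw [h1, h2]
  ring

theorem cut_bg (π : Fin d × Fin d → Equiv.Perm (Fin M)) (S : Finset (W d M)) :
    cut (bg π) (S : Set (W d M)) + 2 * inner π S = d * S.card := by
  classical
  have h1 : cut (bg π) (S : Set (W d M)) =
      ∑ u ∈ S, (univ.filter fun k => nb π u k ∉ S).card := by
    have h2 : {p : W d M × W d M | p.1 ∈ (S : Set (W d M)) ∧ p.2 ∉ (S : Set (W d M)) ∧
        (bg π).Adj p.1 p.2} = ((S.sigma fun u => univ.filter fun k => nb π u k ∉ S).image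
          (fun p => (p.1, nb π p.1 p.2)) : Finset (W d M × W d M)) := by
      ext ⟨u, v⟩
      simp only [Set.mem_ofPred_eq, mem_coe, coe_image, Set.mem_image, mem_sigma, mem_filter,
        mem_univ, true_and, Prod.mk.injEq, Sigma.exists, bg_adj]
      constructor
      · rintro ⟨h1, h2, k, rfl⟩
        exact ⟨u, k, ⟨h1, h2⟩, rfl, rfl⟩
      · rintro ⟨u', k, ⟨h1, h2⟩, rfl, rfl⟩
        exact ⟨h1, h2, k, rfl⟩
    unfold cut
    rw [h2, Set.ncard_coe_finset, card_image_of_injOn, card_sigma]
    rintro ⟨u, k⟩ _ ⟨u', k'⟩ _ h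
    simp only [Prod.mk.injEq] at h
    obtain ⟨rfl, h⟩ := h
    rw [nb_inj π u h]
  rw [h1, ← inner_pairs, ← sum_add_distrib]
  have h3 : ∀ u ∈ S, (univ.filter fun k => nb π u k ∉ S).card +
      (univ.filter fun k => nb π u k ∈ S).card = d := by
    intro u _
    have := card_filter_add_card_filter_not (s := (univ : Finset (Fin d))) (fun k => nb π u k ∈ S)
    rw [card_univ, Fintype.card_fin] at this
    omega
  rw [sum_congr rfl h3, sum_const, smul_eq_mul, mul_comm]

/-- all sets expand -/
theorem exists_base (hM : 1 ≤ M) (hd : 1 ≤ d) {ε : ℝ} (hε : 0 < ε) (hε1 : ε ≤ 1)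
    (hD : 16 ≤ (d : ℝ) * ε ^ 2) :
    ∃ H : SimpleGraph (W d M), (∀ u, (H.neighborSet u).ncard = d) ∧
      ∀ S : Set (W d M), (1 - (S.ncard : ℝ) / (2 * d * M) - ε) * (d * S.ncard) ≤ cut H S := by
  classical
  obtain ⟨π, hπ⟩ := exists_lift hM hd hε hε1 hD
  refine ⟨bg π, bg_degree π, fun S => ?_⟩
  obtain ⟨S', rfl⟩ : ∃ S' : Finset (W d M), S = S' := ⟨S.toFinset, by simp⟩
  rw [Set.ncard_coe_finset]
  have h1 := hπ S'
  have h2 : (cut (bg π) (S' : Set (W d M)) : ℝ) + 2 * inner π S' = d * S'.card := by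
    exact_mod_cast cut_bg π S'
  unfold bd at h1
  have h3 : (cut (bg π) (S' : Set (W d M)) : ℝ) = d * S'.card - 2 * inner π S' := by linarith
  rw [h3]
  have h4 : (1 - (S'.card : ℝ) / (2 * d * M) - ε) * (d * S'.card) =
      d * S'.card - 2 * (d * S'.card / 2 * (S'.card / (2 * d * M) + ε)) := by ring
  rw [h4]
  linarith

end Pool.Agent.Q128.SSL
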