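import Pool.Agent.Q128.SSL.Run

set_option autoImplicit false
set_option linter.unusedSectionVars false

/-! Cyclic covers with a small number of edges between the sheets. -/

namespace Pool.Agent.Q128.SSL

open Pool.Agent.TH912.LS (ball mem_ball ball_self ball_symm ball_trans ball_mono ball_adj)

variable {U : Type} {q : ℕ}

/-- the data: a base graph with two edges `a a'` and `b b'` without common endpoints -/
structure Data (U : Type) where
  H : SimpleGraph U
  a : U
  a' : U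
  b : U
  b' : U
  haa : H.Adj a a'
  hbb : H.Adj b b'
  n1 : a ≠ b
  n2 : a ≠ b'
  n3 : a' ≠ b
  n4 : a' ≠ b'

variable (D : Data U)

/-- the two edges -/
def Data.Rem (u v : U) : Prop :=
  (u = D.a ∧ v = D.a') ∨ (u = D.a' ∧ v = D.a) ∨ (u = D.b ∧ v = D.b') ∨ (u = D.b' ∧ v = D.b)

/-- the edges between the sheets -/
def Data.Cr (x y : U × ZMod q) : Prop :=
  (x.1 = D.a ∧ y.1 = D.b ∧ y.2 = x.2 + 1) ∨ (x.1 = D.a' ∧ y.1 = D.b' ∧ y.2 = x.2 + 1) ∨
  (y.1 = D.a ∧ x.1 = D.b ∧ x.2 = y.2 + 1) ∨ (y.1 = D.a' ∧ x.1 = D.b' ∧ x.2 = y.2 + 1)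

theorem Data.Rem.symm {D : Data U} {u v : U} (h : D.Rem u v) : D.Rem v u := by
  unfold Data.Rem at h ⊢
  tauto

theorem Data.Cr.symm {D : Data U} {x y : U × ZMod q} (h : D.Cr x y) : D.Cr y x := by
  unfold Data.Cr at h ⊢
  tauto

/-- the cover: the two edges are replaced by edges between consecutive sheets -/
def Data.cov (q : ℕ) : SimpleGraph (U × ZMod q) where
  Adj x y := (x.2 = y.2 ∧ D.H.Adj x.1 y.1 ∧ ¬ D.Rem x.1 y.1) ∨ D.Cr x y
  symm := ⟨by
    rintro x y (⟨h1, h2, h3⟩ | h)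
    · exact Or.inl ⟨h1.symm, h2.symm, fun h => h3 h.symm⟩
    · exact Or.inr h.symm⟩
  loopless := ⟨by
    rintro x (⟨_, h2, _⟩ | h)
    · exact D.H.loopless.irrefl _ h2
    · rcases h with ⟨h1, h2, _⟩ | ⟨h1, h2, _⟩ | ⟨h1, h2, _⟩ | ⟨h1, h2, _⟩
      · exact D.n1 (h1.symm.trans h2)
      · exact D.n4 (h1.symm.trans h2)
      · exact D.n1 (h1.symm.trans h2)
      · exact D.n4 (h1.symm.trans h2)⟩

theorem cov_adj (x y : U × ZMod q) : (D.cov q).Adj x y ↔
    (x.2 = y.2 ∧ D.H.Adj x.1 y.1 ∧ ¬ D.Rem x.1 y.1) ∨ D.Cr x y := Iff.rfl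

theorem one_ne [Fact (1 < q)] (i : ZMod q) : i + 1 ≠ i := by
  intro h
  exact one_ne_zero (add_eq_left.mp h)

theorem ncard_aux [Finite U] {N : Set U} {c : U} (hc : c ∈ N) {i : ZMod q} {y : U × ZMod q}
    (hy : y.2 ≠ i) : (insert y ((fun v => (v, i)) '' (N \ {c}))).ncard = N.ncard := by
  have hinj : Function.Injective (fun v : U => (v, i)) := fun v v' h => (Prod.mk.inj h).1
  rw [Set.ncard_insert_of_notMem, Set.ncard_image_of_injective _ hinj,
    Set.ncard_sdiff_singleton_add_one hc]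
  · rintro ⟨v, _, rfl⟩
    exact hy rfl

theorem degree_cov [Finite U] [Fact (1 < q)] {d : ℕ} (hd : ∀ u, (D.H.neighborSet u).ncard = d)
    (x : U × ZMod q) : ((D.cov q).neighborSet x).ncard = d := by
  obtain ⟨u, i⟩ := x
  have hna : D.a ≠ D.a' := D.haa.ne
  have hnb : D.b ≠ D.b' := D.hbb.ne
  have n1 := D.n1
  have n2 := D.n2
  have n3 := D.n3
  have n4 := D.n4
  have hi : ∀ j : ZMod q, i = j + 1 ↔ j = i - 1 := fun j =>
    ⟨fun h => by rw [h]; ring, fun h => by rw [h]; ring⟩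
  have hi' : i - 1 ≠ i := fun h => one_ne (i - 1) (by rw [sub_add_cancel]; exact h.symm)
  by_cases h1 : u = D.a
  · subst h1
    have h : (D.cov q).neighborSet (D.a, i) =
        insert (D.b, i + 1) ((fun v => (v, i)) '' (D.H.neighborSet D.a \ {D.a'})) := by
      ext ⟨v, j⟩
      simp only [SimpleGraph.mem_neighborSet, cov_adj, Data.Rem, Data.Cr, Set.mem_insert_iff,
        Set.mem_image, Set.mem_sdiff, Set.mem_singleton_iff, Prod.mk.injEq, true_and, hna, n1, n2,
        false_and, and_false, or_false]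
      constructor
      · rintro (⟨rfl, h2, h3⟩ | h2)
        · exact Or.inr ⟨v, ⟨h2, h3⟩, rfl, rfl⟩
        · exact Or.inl h2
      · rintro (h2 | ⟨v', ⟨h2, h3⟩, rfl, rfl⟩)
        · exact Or.inr h2
        · exact Or.inl ⟨rfl, h2, h3⟩
    rw [h, ncard_aux (N := D.H.neighborSet D.a) D.haa (y := (D.b, i + 1)) (one_ne i), hd]
  by_cases h2 : u = D.a'
  · subst h2
    have h : (D.cov q).neighborSet (D.a', i) =
        insert (D.b', i + 1) ((fun v => (v, i)) '' (D.H.neighborSet D.a' \ {D.a})) := by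
      ext ⟨v, j⟩
      simp only [SimpleGraph.mem_neighborSet, cov_adj, Data.Rem, Data.Cr, Set.mem_insert_iff,
        Set.mem_image, Set.mem_sdiff, Set.mem_singleton_iff, Prod.mk.injEq, true_and, hna.symm, n3,
        n4, false_and, and_false, or_false, false_or]
      constructor
      · rintro (⟨rfl, h2, h3⟩ | h2)
        · exact Or.inr ⟨v, ⟨h2, h3⟩, rfl, rfl⟩
        · exact Or.inl h2
      · rintro (h2 | ⟨v', ⟨h2, h3⟩, rfl, rfl⟩)
        · exact Or.inr h2
        · exact Or.inl ⟨rfl, h2, h3⟩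
    rw [h, ncard_aux (N := D.H.neighborSet D.a') D.haa.symm (y := (D.b', i + 1)) (one_ne i), hd]
  by_cases h3 : u = D.b
  · subst h3
    have h : (D.cov q).neighborSet (D.b, i) =
        insert (D.a, i - 1) ((fun v => (v, i)) '' (D.H.neighborSet D.b \ {D.b'})) := by
      ext ⟨v, j⟩
      simp only [SimpleGraph.mem_neighborSet, cov_adj, Data.Rem, Data.Cr, Set.mem_insert_iff,
        Set.mem_image, Set.mem_sdiff, Set.mem_singleton_iff, Prod.mk.injEq, true_and, hi,
        n1.symm, n3.symm, hnb, false_and, and_false, or_false, false_or]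
      constructor
      · rintro (⟨rfl, h2, h3⟩ | h2)
        · exact Or.inr ⟨v, ⟨h2, h3⟩, rfl, rfl⟩
        · exact Or.inl h2
      · rintro (h2 | ⟨v', ⟨h2, h3⟩, rfl, rfl⟩)
        · exact Or.inr h2
        · exact Or.inl ⟨rfl, h2, h3⟩
    rw [h, ncard_aux (N := D.H.neighborSet D.b) D.hbb (y := (D.a, i - 1)) hi', hd]
  by_cases h4 : u = D.b'
  · subst h4
    have h : (D.cov q).neighborSet (D.b', i) =
        insert (D.a', i - 1) ((fun v => (v, i)) '' (D.H.neighborSet D.b' \ {D.b})) := by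
      ext ⟨v, j⟩
      simp only [SimpleGraph.mem_neighborSet, cov_adj, Data.Rem, Data.Cr, Set.mem_insert_iff,
        Set.mem_image, Set.mem_sdiff, Set.mem_singleton_iff, Prod.mk.injEq, true_and, hi,
        n2.symm, n4.symm, hnb.symm, false_and, and_false, false_or]
      constructor
      · rintro (⟨rfl, h2, h3⟩ | h2)
        · exact Or.inr ⟨v, ⟨h2, h3⟩, rfl, rfl⟩
        · exact Or.inl h2
      · rintro (h2 | ⟨v', ⟨h2, h3⟩, rfl, rfl⟩)
        · exact Or.inr h2
        · exact Or.inl ⟨rfl, h2, h3⟩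
    rw [h, ncard_aux (N := D.H.neighborSet D.b') D.hbb.symm (y := (D.a', i - 1)) hi', hd]
  have h : (D.cov q).neighborSet (u, i) = (fun v => (v, i)) '' D.H.neighborSet u := by
    ext ⟨v, j⟩
    simp only [SimpleGraph.mem_neighborSet, cov_adj, Data.Rem, Data.Cr,
      Set.mem_image, Prod.mk.injEq, h1, h2, h3, h4, false_and, and_false, or_false, not_false_eq_true,
      and_true]
    constructor
    · rintro ⟨rfl, h5⟩
      exact ⟨v, h5, rfl, rfl⟩
    · rintro ⟨v', h5, rfl, rfl⟩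
      exact ⟨rfl, h5⟩
  rw [h, Set.ncard_image_of_injective _ (fun v v' h => (Prod.mk.inj h).1), hd]

/-- the clusters have a small boundary -/
theorem cut_sheet [Finite U] [Fact (1 < q)] (i : ZMod q) :
    cut (D.cov q) {x | x.2 = i} ≤ 4 := by
  have h : {p : (U × ZMod q) × (U × ZMod q) | p.1 ∈ {x : U × ZMod q | x.2 = i} ∧
      p.2 ∉ {x : U × ZMod q | x.2 = i} ∧ (D.cov q).Adj p.1 p.2} ⊆
      {((D.a, i), (D.b, i + 1)), ((D.a', i), (D.b', i + 1)), ((D.b, i), (D.a, i - 1)),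
        ((D.b', i), (D.a', i - 1))} := by
    rintro ⟨⟨u, j⟩, ⟨v, k⟩⟩ ⟨h1, h2, h3⟩
    simp only [Set.mem_ofPred_eq] at h1 h2
    subst h1
    rw [cov_adj] at h3
    rcases h3 with ⟨h3, _⟩ | h3
    · exact absurd h3.symm h2
    · simp only [Data.Cr] at h3
      simp only [Set.mem_insert_iff, Set.mem_singleton_iff, Prod.mk.injEq]
      rcases h3 with ⟨rfl, rfl, rfl⟩ | ⟨rfl, rfl, rfl⟩ | ⟨rfl, rfl, h3⟩ | ⟨rfl, rfl, h3⟩
      · simp
      · simp
      · have : k = j - 1 := by rw [h3]; ring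
        simp [this]
      · have : k = j - 1 := by rw [h3]; ring
        simp [this]
  unfold cut
  refine (Set.ncard_le_ncard h (Set.toFinite _)).trans ?_
  refine (Set.ncard_insert_le _ _).trans ?_
  refine Nat.succ_le_succ ((Set.ncard_insert_le _ _).trans ?_)
  refine Nat.succ_le_succ ((Set.ncard_insert_le _ _).trans ?_)
  rw [Set.ncard_singleton]

/-- pairs of `Rem` which leave a set -/
theorem rem_le (K : Set U) : {p : U × U | p.1 ∈ K ∧ p.2 ∉ K ∧ D.Rem p.1 p.2}.ncard ≤ 2 := by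
  obtain ⟨p, hp⟩ : ∃ p : U × U, ∀ u v, u ∈ K → v ∉ K →
      ((u = D.a ∧ v = D.a') ∨ (u = D.a' ∧ v = D.a)) → (u, v) = p := by
    by_cases h : D.a ∈ K
    · refine ⟨(D.a, D.a'), ?_⟩
      rintro u v hu hv (⟨rfl, rfl⟩ | ⟨rfl, rfl⟩)
      · rfl
      · exact absurd h hv
    · refine ⟨(D.a', D.a), ?_⟩
      rintro u v hu hv (⟨rfl, rfl⟩ | ⟨rfl, rfl⟩)
      · exact absurd hu h
      · rfl
  obtain ⟨p', hp'⟩ : ∃ p : U × U, ∀ u v, u ∈ K → v ∉ K →
      ((u = D.b ∧ v = D.b') ∨ (u = D.b' ∧ v = D.b)) → (u, v) = p := by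
    by_cases h : D.b ∈ K
    · refine ⟨(D.b, D.b'), ?_⟩
      rintro u v hu hv (⟨rfl, rfl⟩ | ⟨rfl, rfl⟩)
      · rfl
      · exact absurd h hv
    · refine ⟨(D.b', D.b), ?_⟩
      rintro u v hu hv (⟨rfl, rfl⟩ | ⟨rfl, rfl⟩)
      · exact absurd hu h
      · rfl
  have h : {p : U × U | p.1 ∈ K ∧ p.2 ∉ K ∧ D.Rem p.1 p.2} ⊆ {p, p'} := by
    rintro ⟨u, v⟩ ⟨h1, h2, h3⟩
    unfold Data.Rem at h3
    rcases h3 with h3 | h3 | h3 | h3
    · exact Or.inl (hp u v h1 h2 (Or.inl h3))
    · exact Or.inl (hp u v h1 h2 (Or.inr h3))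
    · exact Or.inr (hp' u v h1 h2 (Or.inl h3))
    · exact Or.inr (hp' u v h1 h2 (Or.inr h3))
  refine (Set.ncard_le_ncard h (Set.toFinite _)).trans ?_
  exact (Set.ncard_insert_le _ _).trans (by rw [Set.ncard_singleton])

/-- a set which meets every fibre in all or nothing -/
theorem cut_lift [Finite U] [NeZero q] (K : Set U) :
    q * cut D.H K ≤ cut (D.cov q) {x | x.1 ∈ K} + 2 * q := by
  let P : Set (U × U) := {p : U × U | p.1 ∈ K ∧ p.2 ∉ K ∧ D.H.Adj p.1 p.2 ∧ ¬ D.Rem p.1 p.2}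
  have h1 : cut D.H K ≤ P.ncard + 2 := by
    have h2 : {p : U × U | p.1 ∈ K ∧ p.2 ∉ K ∧ D.H.Adj p.1 p.2} ⊆
        P ∪ {p : U × U | p.1 ∈ K ∧ p.2 ∉ K ∧ D.Rem p.1 p.2} := by
      rintro p ⟨h1, h2, h3⟩
      by_cases h : D.Rem p.1 p.2
      · exact Or.inr ⟨h1, h2, h⟩
      · exact Or.inl ⟨h1, h2, h3, h⟩
    have h3 := rem_le D K
    unfold cut
    refine (Set.ncard_le_ncard h2 (Set.toFinite _)).trans ?_
    exact (Set.ncard_union_le _ _).trans (by omega)
  have h2 : q * P.ncard ≤ cut (D.cov q) {x | x.1 ∈ K} := by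
    let f : ZMod q × (U × U) → (U × ZMod q) × (U × ZMod q) := fun z =>
      ((z.2.1, z.1), (z.2.2, z.1))
    have hf : Function.Injective f := by
      rintro ⟨i, u, v⟩ ⟨i', u', v'⟩ h
      simp only [f, Prod.mk.injEq] at h
      obtain ⟨⟨rfl, rfl⟩, rfl, _⟩ := h
      rfl
    have h3 : f '' (Set.univ ×ˢ P) ⊆ {p : (U × ZMod q) × (U × ZMod q) |
        p.1 ∈ {x : U × ZMod q | x.1 ∈ K} ∧ p.2 ∉ {x : U × ZMod q | x.1 ∈ K} ∧
          (D.cov q).Adj p.1 p.2} := by
      rintro _ ⟨⟨i, u, v⟩, ⟨_, h4, h5, h6, h7⟩, rfl⟩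
      exact ⟨h4, h5, Or.inl ⟨rfl, h6, h7⟩⟩
    have h4 := Set.ncard_le_ncard h3 (Set.toFinite _)
    rw [Set.ncard_image_of_injective _ hf, Set.ncard_prod, Set.ncard_univ, Nat.card_zmod] at h4
    exact h4
  calc q * cut D.H K ≤ q * (P.ncard + 2) := Nat.mul_le_mul_left _ h1
    _ = q * P.ncard + 2 * q := by ring
    _ ≤ _ := Nat.add_le_add_right h2 _

/-- the covering transformations -/
def shift (k : ZMod q) (x : U × ZMod q) : U × ZMod q := (x.1, x.2 + k)

theorem shift_adj (k : ZMod q) (x y : U × ZMod q) :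
    (D.cov q).Adj (shift k x) (shift k y) ↔ (D.cov q).Adj x y := by
  have h1 : ∀ i j : ZMod q, j + k = i + k + 1 ↔ j = i + 1 := fun i j => by
    rw [add_right_comm, add_left_inj]
  simp only [cov_adj, Data.Cr, shift, add_left_inj, h1]

/-- two vertices in a common fibre which are far from `b` -/
theorem lip_walk {V : Type} {G : SimpleGraph V} {F : V → ℤ}
    (hF : ∀ x y, G.Adj x y → |F x - F y| ≤ 1) {x y : V} {n : ℕ} (h : y ∈ ball G x n) :
    |F x - F y| ≤ n := by
  obtain ⟨w, hw⟩ := h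
  have h1 : |F x - F y| ≤ w.length := by
    clear hw
    induction w with
    | nil => simp
    | @cons x z y h w ih =>
      rw [SimpleGraph.Walk.length_cons]
      have h2 := hF x z h
      have h3 := abs_sub_le (F x) (F z) (F y)
      push_cast
      linarith
  exact h1.trans (by exact_mod_cast hw)

/-- the potential which shows that the sheets are far from each other away from `b` -/
def pot (f : U → ℤ) (L : ℤ) (i s : ZMod q) (x : U × ZMod q) : ℤ :=
  if x.2 = i then f x.1 else if x.2 = i + s then L - f x.1 else 0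

theorem pot_lip {f : U → ℤ} {L : ℤ} (i s : ZMod q) (hs : s ≠ 0)
    (hf : ∀ u v, D.H.Adj u v → |f u - f v| ≤ 1)
    {c c' e e' : U} (hc : f c = L) (hc' : f c' = L) (he : f e = 0) (he' : |f e'| ≤ 1)
    (x y : U × ZMod q)
    (h : (x.2 = y.2 ∧ D.H.Adj x.1 y.1) ∨ (x.1 = c ∧ y.1 = e ∧ y.2 = x.2 + s) ∨
      (x.1 = c' ∧ y.1 = e' ∧ y.2 = x.2 + s)) :
    |pot f L i s x - pot f L i s y| ≤ 1 := by
  obtain ⟨u, j⟩ := x
  obtain ⟨v, k⟩ := y
  have hne : i + s ≠ i := fun h => hs (add_eq_left.mp h)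
  simp only [pot] at h ⊢
  rcases h with ⟨rfl, h⟩ | ⟨h5, h6, rfl⟩ | ⟨h5, h6, rfl⟩
  · have h1 := hf u v h
    split_ifs
    · exact h1
    · rw [abs_sub_comm] at h1
      have : L - f u - (L - f v) = f v - f u := by ring
      rw [this]
      exact h1
    · simp
  · rw [h5, h6, hc, he]
    by_cases h1 : j = i
    · subst h1
      simp [hs]
    · by_cases h2 : j = i + s
      · subst h2
        rw [if_neg hne, if_pos rfl]
        by_cases h3 : i + s + s = i
        · rw [if_pos h3]; simp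
        · rw [if_neg h3, if_neg]
          · simp
          · intro h4
            exact hs (add_eq_left.mp h4)
      · rw [if_neg h1, if_neg h2]
        by_cases h3 : j + s = i
        · rw [if_pos h3]; simp
        · rw [if_neg h3, if_neg]
          · simp
          · intro h4
            exact h1 (add_right_cancel h4)
  · rw [h5, h6, hc']
    by_cases h1 : j = i
    · subst h1
      simp only [if_true, add_eq_left, if_neg hs]
      have : L - (L - f e') = f e' := by ring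
      rw [this]
      exact he'
    · by_cases h2 : j = i + s
      · subst h2
        rw [if_neg hne, if_pos rfl]
        by_cases h3 : i + s + s = i
        · rw [if_pos h3]
          have : L - L - f e' = - f e' := by ring
          rw [this, abs_neg]
          exact he'
        · rw [if_neg h3, if_neg]
          · simp
          · intro h4
            exact hs (add_eq_left.mp h4)
      · rw [if_neg h1, if_neg h2]
        by_cases h3 : j + s = i
        · rw [if_pos h3, zero_sub, abs_neg]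
          exact he'
        · rw [if_neg h3, if_neg]
          · simp
          · intro h4
            exact h1 (add_right_cancel h4)

theorem far_aux {f : U → ℤ} {L : ℤ} (hL : 0 ≤ L) (s : ZMod q) (hs : s ≠ 0)
    (hf : ∀ u v, D.H.Adj u v → |f u - f v| ≤ 1)
    {c c' e e' : U} (hc : f c = L) (hc' : f c' = L) (he : f e = 0) (he' : |f e'| ≤ 1)
    (hadj : ∀ x y : U × ZMod q, (D.cov q).Adj x y → (x.2 = y.2 ∧ D.H.Adj x.1 y.1) ∨
      (x.1 = c ∧ y.1 = e ∧ y.2 = x.2 + s) ∨ (x.1 = c' ∧ y.1 = e' ∧ y.2 = x.2 + s) ∨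
      (y.1 = c ∧ x.1 = e ∧ x.2 = y.2 + s) ∨ (y.1 = c' ∧ x.1 = e' ∧ x.2 = y.2 + s))
    (x : U × ZMod q) (hx : f x.1 = L) (k : ZMod q) (hk : k ≠ 0) (n : ℕ)
    (h : shift k x ∈ ball (D.cov q) x n) : L ≤ n := by
  have h1 : |pot f L x.2 s x - pot f L x.2 s (shift k x)| ≤ n := by
    refine lip_walk (G := D.cov q) (fun y z hyz => ?_) h
    rcases hadj y z hyz with h | h | h | h | h
    · exact pot_lip D x.2 s hs hf hc hc' he he' y z (Or.inl h)
    · exact pot_lip D x.2 s hs hf hc hc' he he' y z (Or.inr (Or.inl h))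
    · exact pot_lip D x.2 s hs hf hc hc' he he' y z (Or.inr (Or.inr h))
    · rw [abs_sub_comm]
      exact pot_lip D x.2 s hs hf hc hc' he he' z y (Or.inr (Or.inl h))
    · rw [abs_sub_comm]
      exact pot_lip D x.2 s hs hf hc hc' he he' z y (Or.inr (Or.inr h))
  have h2 : pot f L x.2 s x = L := by
    unfold pot
    rw [if_pos rfl, hx]
  have h3 : pot f L x.2 s (shift k x) = 0 := by
    unfold pot shift
    simp only [add_eq_left, if_neg hk, hx, sub_self, ite_self]
  rw [h2, h3, sub_zero, abs_of_nonneg hL] at h1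
  exact h1

end Pool.Agent.Q128.SSL
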