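import Pool.Agent.TH912.LS.Defs

set_option autoImplicit false

/-! Local search for small-set expansion: definitions. The balls, the local costs and the selected
set are those of `Pool/Agent/TH912/LS/Defs.lean`. -/

namespace Pool.Agent.Q128.SSL

open Pool.Agent.TH912.LS (ball LocalCost sel)

/-- The number of edges with exactly one endpoint in `S` (counted as the pairs `(u, v)` of adjacent
vertices with `u` in `S` and `v` not in `S`). -/
noncomputable def cut {V : Type} (G : SimpleGraph V) (S : Set V) : ℕ :=
  {p : V × V | p.1 ∈ S ∧ p.2 ∉ S ∧ G.Adj p.1 p.2}.ncard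

/-- An improving move: from `σ` to a `σ'` that differs from `σ` only inside the union of at most `m`
balls of radius `t` and has smaller potential. -/
def Step {S V : Type} [Fintype V] {r : ℕ} (F : LocalCost S r) (m t : ℕ) (G : SimpleGraph V)
    (σ σ' : V → S) : Prop :=
  (∃ T : Finset V, T.card ≤ m ∧ ∀ v, σ' v ≠ σ v → ∃ c ∈ T, v ∈ ball G c t) ∧
  F.total G σ' < F.total G σ

/-- An improving move inside one ball of radius `t` which does not change the number of selected
vertices (`I` is the set of the states which select a vertex). -/
def SizeStep {S V : Type} [Fintype V] {r : ℕ} (F : LocalCost S r) (I : Set S) (t : ℕ)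
    (G : SimpleGraph V) (σ σ' : V → S) : Prop :=
  Step F 1 t G σ σ' ∧ (sel I σ').ncard = (sel I σ).ncard

end Pool.Agent.Q128.SSL
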