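import Pool.Agent.Q128.SSL.Perm

set_option autoImplicit false

/-! Random lifts of the complete bipartite graph: every set of vertices expands. -/

namespace Pool.Agent.Q128.SSL

open Finset

variable {d M : ℕ}

/-- the vertices: two copies of `Fin d × Fin M` -/
abbrev W (d M : ℕ) : Type := (Fin d × Fin M) ⊕ (Fin d × Fin M)

/-- the part of `A` over `i` -/
def row (A : Finset (Fin d × Fin M)) (i : Fin d) : Finset (Fin M) :=
  univ.filter fun x => (i, x) ∈ A

theorem sum_row (A : Finset (Fin d × Fin M)) : ∑ i, (row A i).card = A.card := by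
  have h1 : A = univ.filter fun p : Fin d × Fin M => p ∈ A := by ext; simp
  have h2 : A.card = ∑ i : Fin d, ∑ x : Fin M, if (i, x) ∈ A then 1 else 0 := by
    conv_lhs => rw [h1]
    rw [card_filter, ← Fintype.sum_prod_type' (f := fun (i : Fin d) (x : Fin M) =>
      if (i, x) ∈ A then 1 else 0)]
  rw [h2]
  refine sum_congr rfl fun i _ => ?_
  unfold row
  rw [card_filter]

/-- the number of edges inside `S` -/
def inner (π : Fin d × Fin d → Equiv.Perm (Fin M)) (S : Finset (W d M)) : ℕ :=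
  ∑ k : Fin d × Fin d, hit (row S.toLeft k.1) (row S.toRight k.2) (π k)

theorem mgf_inner (hM : 1 ≤ M) (S : Finset (W d M)) {w : ℝ} (hw : 0 ≤ w) :
    ∑ π : Fin d × Fin d → Equiv.Perm (Fin M), (1 + w) ^ inner π S ≤
      (Fintype.card (Fin d × Fin d → Equiv.Perm (Fin M)) : ℝ) *
        Real.exp (w * (S.toLeft.card * S.toRight.card) / M) := by
  have h1 : ∀ π : Fin d × Fin d → Equiv.Perm (Fin M), (1 + w) ^ inner π S =
      ∏ k : Fin d × Fin d, (1 + w) ^ hit (row S.toLeft k.1) (row S.toRight k.2) (π k) := by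
    intro π
    unfold inner
    rw [prod_pow_eq_pow_sum]
  rw [sum_congr rfl fun π _ => h1 π]
  have h2 := Finset.prod_univ_sum (fun _ : Fin d × Fin d => (univ : Finset (Equiv.Perm (Fin M))))
    (fun k p => (1 + w) ^ hit (row S.toLeft k.1) (row S.toRight k.2) p)
  rw [Fintype.piFinset_univ] at h2
  rw [← h2]
  refine (prod_le_prod (fun k _ => sum_nonneg fun p _ => by positivity)
    (fun k _ => mgf hM _ _ hw)).trans (le_of_eq ?_)
  rw [prod_mul_distrib, ← Real.exp_sum]
  congr 1
  · rw [prod_const, card_univ, Fintype.card_fun, Fintype.card_perm, Fintype.card_fin]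
    push_cast
    rfl
  · congr 1
    rw [← sum_row S.toLeft, ← sum_row S.toRight, ← sum_div, ← mul_sum,
      Fintype.sum_prod_type]
    push_cast
    rw [sum_mul_sum]

/-- the bound which is to hold -/
noncomputable def bd (d M : ℕ) (ε : ℝ) (s : ℕ) : ℝ := d * s / 2 * (s / (2 * d * M) + ε)

theorem exponent {n s : ℝ} {ε D : ℝ} (hn : s ≤ n) (hs : 0 < s) (hε : 0 < ε)
    (hε1 : ε ≤ 1) (hD : 16 ≤ D * ε ^ 2) :
    ε * (D * s / 2) - D * s / 2 * (s / n + ε) * Real.log (1 + ε * (n / s)) ≤
      -(4 * s * Real.log (1 + n / s)) := by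
  have hx0 : 0 < n / s := by
    have : 0 < n := by linarith
    positivity
  have hn0 : 0 < n := by linarith
  set x := n / s with hx
  have hsn : s / n = 1 / x := by rw [hx]; field_simp
  rw [hsn]
  set u := ε * x with hu
  have hu0 : 0 < u := by positivity
  have h1 : 2 * u / (u + 2) ≤ Real.log (1 + u) := Real.le_log_one_add_of_nonneg hu0.le
  have hD0 : 0 < D := by
    by_contra h
    push Not at h
    have : D * ε ^ 2 ≤ 0 := mul_nonpos_of_nonpos_of_nonneg h (by positivity)
    linarith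
  have h2 : 1 ≤ (1 / 2 + 1 / u) * Real.log (1 + u) := by
    have h3 : (1 / 2 + 1 / u) * (2 * u / (u + 2)) = 1 := by
      field_simp
    calc (1 : ℝ) = (1 / 2 + 1 / u) * (2 * u / (u + 2)) := h3.symm
      _ ≤ (1 / 2 + 1 / u) * Real.log (1 + u) := mul_le_mul_of_nonneg_left h1 (by positivity)
  have h4 : ε * Real.log (1 + x) ≤ Real.log (1 + u) := by
    have h5 : (1 + x) ^ ε ≤ 1 + ε * x := (rpow_one_add_le_one_add_mul_self (by linarith) hε.le hε1).trans (le_of_eq (by ring))
    have h6 := Real.log_le_log (by positivity) h5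
    rwa [Real.log_rpow (by positivity)] at h6
  have h5 : 0 ≤ Real.log (1 + x) := Real.log_nonneg (by linarith)
  have h6 : D * s / 2 * (1 / x + ε) * Real.log (1 + u) =
      (D * s * ε / 2) * ((1 / u + 1) * Real.log (1 + u)) := by
    rw [hu]
    field_simp
  rw [h6]
  have h7 : (1 / u + 1) * Real.log (1 + u) =
      (1 / 2 + 1 / u) * Real.log (1 + u) + 1 / 2 * Real.log (1 + u) := by ring
  rw [h7]
  have h8 : 0 < D * s * ε / 2 := by positivity
  have h9 : (D * s * ε / 2) * 1 ≤ (D * s * ε / 2) * ((1 / 2 + 1 / u) * Real.log (1 + u)) :=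
    mul_le_mul_of_nonneg_left h2 h8.le
  have h10 : (D * s * ε / 2) * (1 / 2 * (ε * Real.log (1 + x))) ≤
      (D * s * ε / 2) * (1 / 2 * Real.log (1 + u)) :=
    mul_le_mul_of_nonneg_left (by linarith) h8.le
  have h11 : 4 * s * Real.log (1 + x) ≤ (D * s * ε / 2) * (1 / 2 * (ε * Real.log (1 + x))) := by
    have : (D * s * ε / 2) * (1 / 2 * (ε * Real.log (1 + x))) =
        (D * ε ^ 2) / 4 * (s * Real.log (1 + x)) := by ring
    rw [this]
    have h12 : 0 ≤ s * Real.log (1 + x) := by positivity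
    nlinarith
  linarith

theorem bad_le (hM : 1 ≤ M) (hd : 1 ≤ d) {ε : ℝ} (hε : 0 < ε) (hε1 : ε ≤ 1)
    (hD : 16 ≤ (d : ℝ) * ε ^ 2) (S : Finset (W d M)) (hS : S.Nonempty) :
    ((univ.filter fun π : Fin d × Fin d → Equiv.Perm (Fin M) =>
      bd d M ε S.card < inner π S).card : ℝ) ≤
      (Fintype.card (Fin d × Fin d → Equiv.Perm (Fin M)) : ℝ) *
        Real.exp (-(4 * S.card * Real.log (1 + (2 * d * M : ℕ) / S.card))) := by
  have hM0 : (0 : ℝ) < M := by exact_mod_cast hM
  have hd0 : (0 : ℝ) < d := by exact_mod_cast hd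
  obtain ⟨s, hs⟩ : ∃ s : ℕ, s = S.card := ⟨_, rfl⟩
  have hs0 : (0 : ℝ) < s := by
    rw [hs]
    exact_mod_cast hS.card_pos
  have hsn : (s : ℝ) ≤ 2 * d * M := by
    have h1 := card_le_univ S
    rw [Fintype.card_sum, Fintype.card_prod, Fintype.card_fin, Fintype.card_fin, ← hs] at h1
    have h2 : ((s : ℕ) : ℝ) ≤ ((d * M + d * M : ℕ) : ℝ) := by exact_mod_cast h1
    push_cast at h2
    linarith
  rw [← hs]
  push_cast
  set w : ℝ := ε * (2 * d * M / s) with hw
  have hw0 : 0 < w := by rw [hw]; positivity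
  have h1 := mgf_inner hM S hw0.le
  have h2 : ∑ π ∈ univ.filter (fun π : Fin d × Fin d → Equiv.Perm (Fin M) =>
      bd d M ε s < inner π S), (1 + w) ^ (bd d M ε s) ≤
      ∑ π : Fin d × Fin d → Equiv.Perm (Fin M), (1 + w) ^ inner π S := by
    refine le_trans ?_ (sum_le_sum_of_subset_of_nonneg (s := univ.filter
      (fun π : Fin d × Fin d → Equiv.Perm (Fin M) => bd d M ε s < inner π S)) (filter_subset _ _)
      (fun π _ _ => by positivity))
    refine sum_le_sum fun π hπ => ?_
    rw [mem_filter] at hπ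
    rw [← Real.rpow_natCast]
    exact Real.rpow_le_rpow_of_exponent_le (by linarith) hπ.2.le
  rw [sum_const, nsmul_eq_mul] at h2
  have h3 := h2.trans h1
  have h4 : (0 : ℝ) < (1 + w) ^ (bd d M ε s) := Real.rpow_pos_of_pos (by linarith) _
  rw [← le_div_iff₀ h4] at h3
  refine h3.trans ?_
  rw [mul_div_assoc]
  refine mul_le_mul_of_nonneg_left ?_ (Nat.cast_nonneg _)
  rw [Real.rpow_def_of_pos (by linarith), ← Real.exp_sub]
  apply Real.exp_le_exp.mpr
  have h5 : w * (S.toLeft.card * S.toRight.card) / M ≤ ε * (d * s / 2) := by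
    have h6 : S.toLeft.card + S.toRight.card = s := by rw [hs]; exact card_toLeft_add_card_toRight
    have h7 : (S.toLeft.card : ℝ) + S.toRight.card = s := by exact_mod_cast h6
    have h8 : (S.toLeft.card : ℝ) * S.toRight.card ≤ s ^ 2 / 4 := by
      rw [← h7]
      nlinarith [sq_nonneg ((S.toLeft.card : ℝ) - S.toRight.card)]
    have h9 : w * (S.toLeft.card * S.toRight.card) / M ≤ w * (s ^ 2 / 4) / M := by gcongr
    refine h9.trans (le_of_eq ?_)
    rw [hw]
    field_simp
    ring
  have h6 := exponent hsn hs0 hε hε1 hD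
  unfold bd
  have h7 : Real.log (1 + w) * (d * s / 2 * (s / (2 * d * M) + ε)) =
      d * s / 2 * (s / (2 * d * M) + ε) * Real.log (1 + ε * (2 * d * M / s)) := by
    rw [hw]; ring
  rw [h7]
  linarith

theorem choose_bd {n s : ℕ} (hs : 1 ≤ s) (hsn : s ≤ n) :
    (n.choose s : ℝ) * Real.exp (-(4 * s * Real.log (1 + (n : ℝ) / s))) ≤ (1 / 4 : ℝ) ^ s := by
  have hs0 : (0 : ℝ) < s := by exact_mod_cast hs
  have hn0 : (0 : ℝ) < n := by exact_mod_cast (lt_of_lt_of_le hs hsn)
  set x : ℝ := (n : ℝ) / s with hx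
  have hx1 : 1 ≤ x := by
    rw [hx, le_div_iff₀ hs0, one_mul]
    exact_mod_cast hsn
  have h1 : (n.choose s : ℝ) ≤ (n : ℝ) ^ s / s.factorial := Nat.choose_le_pow_div s n
  have h2 : (s : ℝ) ^ s / s.factorial ≤ Real.exp s := Real.pow_div_factorial_le_exp _ hs0.le s
  have h3 : (n : ℝ) ^ s / s.factorial = x ^ s * ((s : ℝ) ^ s / s.factorial) := by
    rw [hx, div_pow]
    field_simp
  have h4 : (n.choose s : ℝ) ≤ x ^ s * Real.exp s := by
    refine h1.trans ?_
    rw [h3]
    exact mul_le_mul_of_nonneg_left h2 (by positivity)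
  have h5 : Real.exp (-(4 * s * Real.log (1 + x))) = (((1 + x) ^ 4)⁻¹) ^ s := by
    have h6 : (1 + x) = Real.exp (Real.log (1 + x)) := (Real.exp_log (by linarith)).symm
    conv_rhs => rw [h6]
    rw [← Real.exp_nat_mul, ← Real.exp_neg, ← Real.exp_nat_mul]
    congr 1
    push_cast
    ring
  rw [h5]
  have h6 : Real.exp s = (Real.exp 1) ^ s := by rw [← Real.exp_nat_mul, mul_one]
  calc (n.choose s : ℝ) * (((1 + x) ^ 4)⁻¹) ^ s ≤ (x ^ s * Real.exp s) * (((1 + x) ^ 4)⁻¹) ^ s := by
        gcongr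
    _ = (x * Real.exp 1 * ((1 + x) ^ 4)⁻¹) ^ s := by rw [h6, mul_pow, mul_pow]
    _ ≤ (1 / 4) ^ s := by
        refine pow_le_pow_left₀ (by positivity) ?_ _
        rw [← div_eq_mul_inv, div_le_iff₀ (by positivity)]
        have h7 : Real.exp 1 < 4 := by
          have := Real.exp_one_lt_d9
          linarith
        have h8 : (16 : ℝ) * x ≤ (1 + x) ^ 4 := by
          have h9 : 4 * x ≤ (1 + x) ^ 2 := by nlinarith [sq_nonneg (1 - x)]
          have h10 : (4 : ℝ) ≤ (1 + x) ^ 2 := by nlinarith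
          nlinarith [mul_le_mul h9 h10 (by norm_num) (by positivity)]
        nlinarith

theorem exists_lift (hM : 1 ≤ M) (hd : 1 ≤ d) {ε : ℝ} (hε : 0 < ε) (hε1 : ε ≤ 1)
    (hD : 16 ≤ (d : ℝ) * ε ^ 2) :
    ∃ π : Fin d × Fin d → Equiv.Perm (Fin M), ∀ S : Finset (W d M),
      (inner π S : ℝ) ≤ bd d M ε S.card := by
  classical
  by_contra hcon
  push Not at hcon
  set K : ℝ := (Fintype.card (Fin d × Fin d → Equiv.Perm (Fin M)) : ℝ) with hK
  have hK0 : 0 < K := by
    rw [hK]
    exact_mod_cast Fintype.card_pos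
  have h0 : ∀ π : Fin d × Fin d → Equiv.Perm (Fin M), ¬ bd d M ε (∅ : Finset (W d M)).card <
      inner π ∅ := by
    intro π
    have h1 : inner π (∅ : Finset (W d M)) = 0 := by
      unfold inner
      refine sum_eq_zero fun k _ => ?_
      unfold hit row
      simp
    rw [h1]
    unfold bd
    simp
  have h1 : (univ : Finset (Fin d × Fin d → Equiv.Perm (Fin M))) ⊆
      ((univ : Finset (Finset (W d M))).erase ∅).biUnion fun S =>
        univ.filter fun π => bd d M ε S.card < inner π S := by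
    intro π _
    obtain ⟨S, hS⟩ := hcon π
    rw [mem_biUnion]
    refine ⟨S, ?_, by rw [mem_filter]; exact ⟨mem_univ _, hS⟩⟩
    rw [mem_erase]
    refine ⟨?_, mem_univ _⟩
    rintro rfl
    exact h0 π hS
  have hn : Fintype.card (W d M) = 2 * d * M := by
    rw [Fintype.card_sum, Fintype.card_prod, Fintype.card_fin, Fintype.card_fin]
    ring
  let f : ℕ → ℝ := fun s => if s = 0 then 0 else
    K * Real.exp (-(4 * s * Real.log (1 + (2 * d * M : ℕ) / s)))
  have h2 : K ≤ ∑ S ∈ (univ : Finset (Finset (W d M))).erase ∅, f S.card := by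
    have h3 : ((univ : Finset (Fin d × Fin d → Equiv.Perm (Fin M))).card : ℝ) ≤
        ∑ S ∈ (univ : Finset (Finset (W d M))).erase ∅,
          ((univ.filter fun π : Fin d × Fin d → Equiv.Perm (Fin M) =>
            bd d M ε S.card < inner π S).card : ℝ) := by
      exact_mod_cast (card_le_card h1).trans card_biUnion_le
    rw [card_univ] at h3
    refine h3.trans (sum_le_sum fun S hS => ?_)
    rw [mem_erase] at hS
    have hS' : S.Nonempty := nonempty_iff_ne_empty.mpr hS.1
    have hS0 : S.card ≠ 0 := hS'.card_pos.ne'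
    simp only [f, if_neg hS0]
    exact bad_le hM hd hε hε1 hD S hS'
  have h3 : ∑ S ∈ (univ : Finset (Finset (W d M))).erase ∅, f S.card ≤
      ∑ S ∈ (univ : Finset (W d M)).powerset, f S.card := by
    refine sum_le_sum_of_subset_of_nonneg ?_ ?_
    · intro S _
      exact mem_powerset.mpr (subset_univ _)
    · intro S _ _
      simp only [f]
      split_ifs
      · exact le_rfl
      · positivity
  rw [Finset.sum_powerset_apply_card, card_univ, hn] at h3
  have h4 : ∑ m ∈ range (2 * d * M + 1), (2 * d * M).choose m • f m ≤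
      ∑ m ∈ range (2 * d * M + 1), (if m = 0 then 0 else K * (1 / 4 : ℝ) ^ m) := by
    refine sum_le_sum fun m hm => ?_
    rw [mem_range] at hm
    simp only [f]
    split_ifs with h
    · simp
    · rw [nsmul_eq_mul]
      have h5 := choose_bd (n := 2 * d * M) (s := m) (by omega) (by omega)
      calc ((2 * d * M).choose m : ℝ) *
            (K * Real.exp (-(4 * m * Real.log (1 + (2 * d * M : ℕ) / m))))
          = K * (((2 * d * M).choose m : ℝ) *
            Real.exp (-(4 * m * Real.log (1 + ((2 * d * M : ℕ) : ℝ) / m)))) := by ring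
        _ ≤ K * (1 / 4) ^ m := mul_le_mul_of_nonneg_left h5 hK0.le
  have h5 : ∑ m ∈ range (2 * d * M + 1), (if m = 0 then 0 else K * (1 / 4 : ℝ) ^ m) ≤ K * (1 / 3) := by
    rw [sum_range_succ']
    simp only [if_true, add_zero, Nat.succ_ne_zero, if_false]
    rw [← mul_sum]
    refine mul_le_mul_of_nonneg_left ?_ hK0.le
    have h6 : ∀ N : ℕ, ∑ m ∈ range N, (1 / 4 : ℝ) ^ (m + 1) = 1 / 3 - 1 / 3 * (1 / 4) ^ N := by
      intro N
      induction N with
      | zero => simp
      | succ N ih => rw [sum_range_succ, ih]; ring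
    rw [h6]
    have : (0 : ℝ) ≤ 1 / 3 * (1 / 4) ^ (2 * d * M) := by positivity
    linarith
  linarith

end Pool.Agent.Q128.SSL
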