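import Pool.Agent.Q128.SSL.Base
import Pool.Agent.Q128.SSL.Cover

set_option autoImplicit false
set_option linter.unusedSectionVars false

/-! The graphs on which local search fails. -/

namespace Pool.Agent.Q128.SSL

open Finset
open Pool.Agent.TH912.LS (ball mem_ball ball_self ball_symm ball_trans ball_mono ball_adj LocalCost
  sel)

section conn

variable {U : Type} {H : SimpleGraph U}

/-- a graph in which all sets except the trivial ones have a boundary is connected -/
theorem connected_of_cut [Finite U] [Nonempty U]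
    (h : ∀ K : Set U, K.Nonempty → Kᶜ.Nonempty → 0 < cut H K) : H.Connected := by
  rw [SimpleGraph.connected_iff]
  refine ⟨?_, inferInstance⟩
  intro u v
  by_contra hcon
  have h1 := h {x | H.Reachable u x} ⟨u, SimpleGraph.Reachable.refl u⟩ ⟨v, hcon⟩
  have h2 : {p : U × U | p.1 ∈ {x | H.Reachable u x} ∧ p.2 ∉ {x | H.Reachable u x} ∧
      H.Adj p.1 p.2} = ∅ := by
    rw [Set.eq_empty_iff_forall_notMem]
    rintro ⟨x, y⟩ ⟨h2, h3, h4⟩
    exact h3 (SimpleGraph.Reachable.trans h2 h4.reachable)
  unfold cut at h1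
  rw [h2] at h1
  simp at h1

theorem cut_compl (K : Set U) : cut H Kᶜ = cut H K := by
  unfold cut
  have h : {p : U × U | p.1 ∈ Kᶜ ∧ p.2 ∉ Kᶜ ∧ H.Adj p.1 p.2} =
      Prod.swap '' {p : U × U | p.1 ∈ K ∧ p.2 ∉ K ∧ H.Adj p.1 p.2} := by
    ext ⟨u, v⟩
    simp only [Set.mem_ofPred_eq, Set.mem_image, Prod.exists, Prod.swap_prod_mk, Prod.mk.injEq,
      Set.mem_compl_iff, not_not]
    constructor
    · rintro ⟨h1, h2, h3⟩
      exact ⟨v, u, ⟨h2, h1, h3.symm⟩, rfl, rfl⟩
    · rintro ⟨a, b, ⟨h1, h2, h3⟩, rfl, rfl⟩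
      exact ⟨h2, h1, h3.symm⟩
  rw [h, Set.ncard_image_of_injective _ Prod.swap_injective]

/-- few vertices are near a given vertex -/
theorem ncard_ball [Finite U] {d : ℕ} (hd : ∀ u, (H.neighborSet u).ncard = d) (a : U) :
    ∀ R : ℕ, (ball H a R).ncard ≤ (d + 1) ^ R := by
  classical
  have : Fintype U := Fintype.ofFinite U
  intro R
  induction R with
  | zero =>
    have h : ball H a 0 ⊆ {a} := by
      rintro u ⟨w, hw⟩
      cases w with
      | nil => rfl
      | cons _ w => simp at hw
    refine (Set.ncard_le_ncard h (Set.toFinite _)).trans ?_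
    simp
  | succ R ih =>
    have h : ball H a (R + 1) ⊆
        ((ball H a R).toFinset.biUnion fun v => insert v (H.neighborSet v).toFinset : Finset U) := by
      intro u hu
      obtain ⟨w, hw⟩ := ball_symm hu
      rw [mem_coe, mem_biUnion]
      cases w with
      | nil => exact ⟨a, by simpa using ball_self H a R, mem_insert_self _ _⟩
      | @cons _ v _ h w =>
        rw [SimpleGraph.Walk.length_cons] at hw
        refine ⟨v, ?_, ?_⟩
        · rw [Set.mem_toFinset]
          exact ball_symm ⟨w, by omega⟩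
        · rw [mem_insert, Set.mem_toFinset]
          exact Or.inr h.symm
    refine (Set.ncard_le_ncard h (Set.toFinite _)).trans ?_
    rw [Set.ncard_coe_finset]
    refine card_biUnion_le.trans ?_
    have h1 : ∀ v ∈ (ball H a R).toFinset, (insert v (H.neighborSet v).toFinset).card ≤ d + 1 := by
      intro v _
      refine (card_insert_le _ _).trans ?_
      rw [← Set.ncard_eq_toFinset_card', hd]
    refine (sum_le_sum h1).trans ?_
    rw [sum_const, smul_eq_mul, ← Set.ncard_eq_toFinset_card', pow_succ]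
    exact Nat.mul_le_mul_right _ ih

end conn

section data

variable {U : Type} [Finite U] (D : Data U) {q : ℕ} [Fact (1 < q)]

theorem q_pos : NeZero q := ⟨by have := (inferInstance : Fact (1 < q)).out; omega⟩

/-- the cover is connected -/
theorem cov_connected (hcut : ∀ K : Set U, K.Nonempty → Kᶜ.Nonempty → 2 < cut D.H K) :
    (D.cov q).Connected := by
  have : NeZero q := q_pos
  have : Nonempty U := ⟨D.a⟩
  rw [SimpleGraph.connected_iff]
  refine ⟨?_, inferInstance⟩
  -- from the vertex `(a, i)` everything can be reached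
  have key : ∀ x y : U × ZMod q, (D.cov q).Reachable x y := by
    intro x
    -- one sheet
    have h1 : ∀ j : ZMod q, (∃ u, (D.cov q).Reachable x (u, j)) →
        ∀ u, (D.cov q).Reachable x (u, j) := by
      rintro j hj
      by_contra hcon
      push Not at hcon
      have h2 := hcut {u | (D.cov q).Reachable x (u, j)} hj hcon
      have h3 : {p : U × U | p.1 ∈ {u | (D.cov q).Reachable x (u, j)} ∧
          p.2 ∉ {u | (D.cov q).Reachable x (u, j)} ∧ D.H.Adj p.1 p.2} ⊆
          {p : U × U | p.1 ∈ {u | (D.cov q).Reachable x (u, j)} ∧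
            p.2 ∉ {u | (D.cov q).Reachable x (u, j)} ∧ D.Rem p.1 p.2} := by
        rintro ⟨u, v⟩ ⟨h3, h4, h5⟩
        refine ⟨h3, h4, ?_⟩
        by_contra h6
        apply h4
        have h7 : (D.cov q).Adj (u, j) (v, j) := Or.inl ⟨rfl, h5, h6⟩
        exact SimpleGraph.Reachable.trans h3 h7.reachable
      have h4 := Set.ncard_le_ncard h3 (Set.toFinite _)
      have h5 := rem_le D {u | (D.cov q).Reachable x (u, j)}
      unfold cut at h2
      omega
    -- the next sheet
    have h2 : ∀ k : ℕ, ∀ u, (D.cov q).Reachable x (u, x.2 + (k : ZMod q)) := by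
      intro k
      induction k with
      | zero =>
        apply h1
        exact ⟨x.1, by simp⟩
      | succ k ih =>
        apply h1
        refine ⟨D.b, ?_⟩
        have h3 : (D.cov q).Adj (D.a, x.2 + (k : ZMod q)) (D.b, x.2 + ((k + 1 : ℕ) : ZMod q)) := by
          refine Or.inr (Or.inl ⟨rfl, rfl, ?_⟩)
          push_cast
          ring
        exact (ih D.a).trans h3.reachable
    rintro ⟨v, j⟩
    have h3 := h2 (j - x.2).val v
    rw [ZMod.natCast_zmod_val] at h3
    simpa using h3
  exact key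

/-- the sheets are far from each other -/
theorem cov_far (hH : D.H.Connected) {L : ℕ} (hdist : 2 * L + 3 ≤ D.H.dist D.a D.b) :
    Far (D.cov q) (shift (U := U) (q := q)) (L - 1) := by
  have : NeZero q := q_pos
  have h1s : (1 : ZMod q) ≠ 0 := one_ne_zero
  have hlip : ∀ c : U, ∀ u v, D.H.Adj u v →
      |((min L (D.H.dist c u) : ℕ) : ℤ) - ((min L (D.H.dist c v) : ℕ) : ℤ)| ≤ 1 := by
    intro c u v h
    have h1 := hH.dist_triangle (u := c) (v := u) (w := v)
    have h2 := hH.dist_triangle (u := c) (v := v) (w := u)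
    rw [SimpleGraph.dist_eq_one_iff_adj.mpr h] at h1
    rw [SimpleGraph.dist_eq_one_iff_adj.mpr h.symm] at h2
    rw [abs_le]
    omega
  have haa := SimpleGraph.dist_eq_one_iff_adj.mpr D.haa
  have hbb := SimpleGraph.dist_eq_one_iff_adj.mpr D.hbb
  have e1 := hH.dist_triangle (u := D.a) (v := D.a') (w := D.b)
  have e2 := hH.dist_triangle (u := D.a) (v := D.b') (w := D.b)
  have e3 : D.H.dist D.b D.a' = D.H.dist D.a' D.b := SimpleGraph.dist_comm
  have e4 : D.H.dist D.b D.a = D.H.dist D.a D.b := SimpleGraph.dist_comm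
  have e5 : D.H.dist D.b' D.b = D.H.dist D.b D.b' := SimpleGraph.dist_comm
  refine ⟨fun x => by simp [shift], fun a b x => by simp [shift, add_assoc, add_comm a b],
    fun k x y => shift_adj D k x y, ?_⟩
  intro k x h
  by_contra hk
  rcases Nat.eq_zero_or_pos L with h0 | hL
  · subst h0
    obtain ⟨w, hw⟩ := h
    have h2 : shift k x = x := by
      have h3 : w.length = 0 := by omega
      exact (SimpleGraph.Walk.eq_of_length_eq_zero h3).symm
    have h4 : x.2 + k = x.2 := congrArg Prod.snd h2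
    exact hk (add_eq_left.mp h4)
  · by_cases hx : L ≤ D.H.dist D.b x.1
    · have h2 := far_aux D (f := fun u => ((min L (D.H.dist D.b u) : ℕ) : ℤ)) (L := L)
        (by positivity) 1 h1s (hlip D.b) (c := D.a) (c' := D.a') (e := D.b) (e' := D.b')
        (by omega) (by omega) (by simp)
        (by rw [abs_le]; omega)
        (by
          intro y z hyz
          rw [cov_adj] at hyz
          unfold Data.Cr at hyz
          tauto) x (by omega) k hk (L - 1) h
      omega
    · have e6 := hH.dist_triangle (u := D.a) (v := x.1) (w := D.b)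
      have e7 : D.H.dist x.1 D.b = D.H.dist D.b x.1 := SimpleGraph.dist_comm
      have h2 := far_aux D (f := fun u => ((min L (D.H.dist D.a u) : ℕ) : ℤ)) (L := L)
        (by positivity) (-1) (neg_ne_zero.mpr h1s) (hlip D.a) (c := D.b) (c' := D.b') (e := D.a)
        (e' := D.a')
        (by omega) (by omega) (by simp)
        (by rw [abs_le]; omega)
        (by
          intro y z hyz
          rw [cov_adj] at hyz
          unfold Data.Cr at hyz
          have h3 : ∀ i j : ZMod q, j = i + 1 ↔ i = j + -1 := fun i j =>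
            ⟨fun h => by rw [h]; ring, fun h => by rw [h]; ring⟩
          rw [h3 y.2 z.2, h3 z.2 y.2] at hyz
          tauto) x (by omega) k hk (L - 1) h
      omega

/-- symmetric sets expand -/
theorem cov_expand {d M : ℕ} {D : Data (W d M)} {ε : ℝ} (hd : 1 ≤ d)
    (hM : 1 ≤ M)
    (hexp : ∀ S : Set (W d M), (1 - (S.ncard : ℝ) / (2 * d * M) - ε) * (d * S.ncard) ≤ cut D.H S)
    {ε' : ℝ} (hε : 2 ≤ (ε' - ε) * d) (S : Set (W d M × ZMod q))
    (hS : ∀ (k : ZMod q) (x : W d M × ZMod q), shift k x ∈ S ↔ x ∈ S) :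
    (1 - (S.ncard : ℝ) / (2 * d * q * M) - ε') * (d * S.ncard) ≤ cut (D.cov q) S := by
  have : NeZero q := q_pos
  have hq0 : (0 : ℝ) < q := by exact_mod_cast Nat.pos_of_ne_zero (NeZero.ne q)
  have hd0 : (0 : ℝ) < d := by exact_mod_cast hd
  have hM0 : (0 : ℝ) < M := by exact_mod_cast hM
  let K : Set (W d M) := {u | (u, (0 : ZMod q)) ∈ S}
  have h1 : S = {x | x.1 ∈ K} := by
    ext ⟨u, i⟩
    have := hS i (u, 0)
    simp only [shift, zero_add] at this
    exact this
  have h2 : S.ncard = q * K.ncard := by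
    have h3 : S = (fun p : W d M × ZMod q => p) '' (K ×ˢ Set.univ) := by
      rw [Set.image_id', h1]
      ext x
      simp
    rw [h3, Set.image_id', Set.ncard_prod, Set.ncard_univ, Nat.card_zmod, mul_comm]
  have h3 := cut_lift D (q := q) K
  rw [← h1] at h3
  have h4 : (q : ℝ) * cut D.H K ≤ cut (D.cov q) S + 2 * q := by exact_mod_cast h3
  have h5 := hexp K
  obtain ⟨k, hk⟩ : ∃ k : ℕ, k = K.ncard := ⟨_, rfl⟩
  rw [h2, ← hk]
  rw [← hk] at h5
  rcases Nat.eq_zero_or_pos k with h0 | h0
  · rw [h0]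
    simp
  · have hk1 : (1 : ℝ) ≤ k := by exact_mod_cast h0
    push_cast
    have h6 : (q : ℝ) * k / (2 * d * q * M) = k / (2 * d * M) := by
      field_simp
    rw [h6]
    have h7 : (q : ℝ) * ((1 - (k : ℝ) / (2 * d * M) - ε) * (d * k)) ≤ q * cut D.H K :=
      mul_le_mul_of_nonneg_left h5 hq0.le
    have h8 : (2 : ℝ) * q ≤ q * ((ε' - ε) * d * k) := by
      have h9 : (2 : ℝ) ≤ (ε' - ε) * d * k := by nlinarith
      nlinarith
    have h9 : (1 - (k : ℝ) / (2 * d * M) - ε') * (d * (q * k)) =
        q * ((1 - (k : ℝ) / (2 * d * M) - ε) * (d * k)) - q * ((ε' - ε) * d * k) := by ring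
    rw [h9]
    linarith

end data

/-- the properties of the graphs -/
theorem main (q : ℕ) (hq : 2 ≤ q) (ε : ℝ) (hε : 0 < ε) (hε1 : ε ≤ 1 / 2) (d : ℕ)
    (hd : 64 / ε ^ 2 ≤ d) (M : ℕ) (hM : q * (d + 1) ^ 8 ≤ M) :
    ∃ (V : Type) (_ : Fintype V) (G : SimpleGraph V) (φ : G ≃g G) (C : ZMod q → Set V),
      Fintype.card V = 2 * d * q * M ∧ G.Connected ∧ (∀ v, (G.neighborSet v).ncard = d) ∧
      (∀ v, ∃! i, v ∈ C i) ∧ (∀ i v, φ v ∈ C (i + 1) ↔ v ∈ C i) ∧
      (∀ i, (C i).ncard = 2 * d * M ∧ cut G (C i) ≤ 4) ∧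
      ∀ (S : Type) [Finite S] (I : Set S) (r m t : ℕ) (F : LocalCost S r) (start : V → S),
        (m * (t + r + 1) : ℝ) ≤ Real.log (Fintype.card V) / (8 * Real.log (d + 1)) →
        (∀ v, start (φ v) = start v) →
        (∃ σ : V → S, Relation.ReflTransGen (Step F m t G) start σ ∧
          (∀ σ', ¬ Step F m t G σ σ') ∧
          (1 - ((sel I σ).ncard : ℝ) / Fintype.card V - ε) * (d * (sel I σ).ncard) ≤
            cut G (sel I σ)) ∧
        (m = 1 → ∃ σ : V → S, Relation.ReflTransGen (SizeStep F I t G) start σ ∧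
          (∀ σ', ¬ SizeStep F I t G σ σ') ∧ (sel I σ).ncard = (sel I start).ncard ∧
          (1 - ((sel I σ).ncard : ℝ) / Fintype.card V - ε) * (d * (sel I σ).ncard) ≤
            cut G (sel I σ)) := by
  classical
  have : Fact (1 < q) := ⟨by omega⟩
  have : NeZero q := ⟨by omega⟩
  have hq0 : (0 : ℝ) < q := by exact_mod_cast (show 0 < q by omega)
  have hq1 : (1 : ℝ) ≤ q := by exact_mod_cast (show 1 ≤ q by omega)
  set η : ℝ := ε / 2 with hη
  have hη0 : 0 < η := by linarith
  have hη1 : η ≤ 1 / 4 := by linarith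
  have hη2 : η ≤ ε / 2 := le_rfl
  have hdη : 16 ≤ (d : ℝ) * η ^ 2 := by
    rw [div_le_iff₀ (by positivity)] at hd
    rw [hη]
    nlinarith
  have hdη1 : 64 ≤ (d : ℝ) * η := by
    have : (d : ℝ) * η ^ 2 ≤ (d : ℝ) * η * (1 / 4) := by
      have : (0 : ℝ) ≤ d * η := by positivity
      nlinarith
    linarith
  have hd256 : (256 : ℝ) ≤ d := by nlinarith
  have hd1 : 1 ≤ d := by
    have : (1 : ℝ) ≤ d := by linarith
    exact_mod_cast this
  have hd0 : (0 : ℝ) < d := by linarith
  have hlogd : 0 < Real.log (d + 1) := Real.log_pos (by linarith)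
  have hM1 : 1 ≤ M := le_trans (Nat.mul_pos (by omega) (by positivity)) hM
  have hM0 : (0 : ℝ) < M := by exact_mod_cast hM1
  obtain ⟨H, hdeg, hexp⟩ := exists_base hM1 hd1 hη0 (by linarith) hdη
  have hcardU : Fintype.card (W d M) = 2 * d * M := by
    rw [Fintype.card_sum, Fintype.card_prod, Fintype.card_fin, Fintype.card_fin]
    ring
  have hcardV : Fintype.card (W d M × ZMod q) = 2 * d * q * M := by
    rw [Fintype.card_prod, hcardU, ZMod.card]
    ring
  -- all sets expand
  have hcut : ∀ K : Set (W d M), K.Nonempty → Kᶜ.Nonempty → 2 < cut H K := by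
    have h1 : ∀ K : Set (W d M), K.Nonempty → 2 * K.ncard ≤ 2 * d * M → 2 < cut H K := by
      intro K hK hK2
      have h2 := hexp K
      have h3 : (1 : ℝ) ≤ K.ncard := by
        have : 1 ≤ K.ncard := (Set.ncard_pos (Set.toFinite _)).mpr hK
        exact_mod_cast this
      have h4 : (K.ncard : ℝ) / (2 * d * M) ≤ 1 / 2 := by
        rw [div_le_iff₀ (by positivity)]
        have : (2 : ℝ) * K.ncard ≤ 2 * d * M := by exact_mod_cast hK2
        linarith
      have h5 : (1 / 4 : ℝ) * (d * K.ncard) ≤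
          (1 - (K.ncard : ℝ) / (2 * d * M) - η) * (d * K.ncard) :=
        mul_le_mul_of_nonneg_right (by linarith) (by positivity)
      have h6 : (2 : ℝ) < cut H K := by nlinarith
      exact_mod_cast h6
    intro K hK hK'
    by_cases h : 2 * K.ncard ≤ 2 * d * M
    · exact h1 K hK h
    · rw [← cut_compl]
      apply h1 _ hK'
      have h2 := Set.ncard_add_ncard_compl K
      rw [Nat.card_eq_fintype_card, hcardU] at h2
      omega
  have hne : Nonempty (W d M) := ⟨Sum.inl (⟨0, hd1⟩, ⟨0, hM1⟩)⟩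
  have hH : H.Connected := connected_of_cut fun K h1 h2 => by
    have := hcut K h1 h2
    omega
  -- the distance
  obtain ⟨n, hn⟩ : ∃ n : ℕ, n = 2 * d * q * M := ⟨_, rfl⟩
  have hn0 : (0 : ℝ) < n := by rw [hn]; push_cast; positivity
  have hnbig : ((q : ℝ) * (d + 1) ^ 4) ^ 2 < n := by
    have h1 : (q : ℝ) * (d + 1) ^ 8 ≤ M := by exact_mod_cast hM
    rw [hn]
    push_cast
    calc ((q : ℝ) * ((d : ℝ) + 1) ^ 4) ^ 2 = (q : ℝ) * ((q : ℝ) * ((d : ℝ) + 1) ^ 8) := by ring
      _ ≤ (q : ℝ) * (M : ℝ) := mul_le_mul_of_nonneg_left h1 hq0.le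
      _ < 2 * (d : ℝ) * (q : ℝ) * (M : ℝ) := by
          have : (0 : ℝ) < (q : ℝ) * (M : ℝ) := by positivity
          nlinarith
  have hlogn : 0 ≤ Real.log n := by
    apply Real.log_nonneg
    have h1 : (1 : ℝ) ≤ ((q : ℝ) * (d + 1) ^ 4) ^ 2 := by
      apply one_le_pow₀
      have : (1 : ℝ) ≤ (d + 1) ^ 4 := one_le_pow₀ (by linarith)
      nlinarith
    linarith
  obtain ⟨l, hl⟩ : ∃ l : ℕ, l = ⌊Real.log n / (4 * Real.log (d + 1))⌋₊ := ⟨_, rfl⟩
  have hl1 : (l : ℝ) ≤ Real.log n / (4 * Real.log (d + 1)) := by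
    rw [hl]
    exact Nat.floor_le (by positivity)
  have hsmall : (d + 1) ^ (2 * (l + 1) + 2) < 2 * d * M := by
    have h1 : ((d : ℝ) + 1) ^ (2 * l) ≤ Real.sqrt n := by
      rw [Real.le_sqrt (by positivity) hn0.le, ← pow_mul]
      have h2 : ((d : ℝ) + 1) ^ (2 * l * 2) = Real.exp (4 * l * Real.log (d + 1)) := by
        rw [← Real.exp_log (show (0 : ℝ) < ((d : ℝ) + 1) ^ (2 * l * 2) by positivity),
          Real.log_pow]
        congr 1
        push_cast
        ring
      rw [h2]
      calc Real.exp (4 * l * Real.log (d + 1)) ≤ Real.exp (Real.log n) := by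
            apply Real.exp_le_exp.mpr
            rw [le_div_iff₀ (by positivity)] at hl1
            linarith
        _ = n := Real.exp_log hn0
    have h3 : (q : ℝ) * (d + 1) ^ 4 < Real.sqrt n := Real.lt_sqrt_of_sq_lt hnbig
    have h4 : ((d : ℝ) + 1) ^ (2 * (l + 1) + 2) * q < 2 * d * M * q := by
      calc ((d : ℝ) + 1) ^ (2 * (l + 1) + 2) * q = (d + 1) ^ (2 * l) * (q * (d + 1) ^ 4) := by ring
        _ < Real.sqrt n * Real.sqrt n := by
            refine mul_lt_mul' h1 h3 (by positivity) (Real.sqrt_pos.mpr hn0)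
        _ = 2 * d * M * q := by
            rw [Real.mul_self_sqrt hn0.le, hn]
            push_cast
            ring
    have h5 : ((d : ℝ) + 1) ^ (2 * (l + 1) + 2) < 2 * d * M := lt_of_mul_lt_mul_right h4 hq0.le
    exact_mod_cast h5
  obtain ⟨a⟩ := hne
  obtain ⟨b, hb⟩ : ∃ b, b ∉ ball H a (2 * (l + 1) + 2) := by
    by_contra hcon
    push Not at hcon
    have h1 : ball H a (2 * (l + 1) + 2) = Set.univ := Set.eq_univ_of_forall hcon
    have h2 := ncard_ball hdeg a (2 * (l + 1) + 2)
    rw [h1, Set.ncard_univ, Nat.card_eq_fintype_card, hcardU] at h2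
    omega
  have hdist : 2 * (l + 1) + 3 ≤ H.dist a b := by
    by_contra hcon
    push Not at hcon
    obtain ⟨w, hw⟩ := hH.exists_walk_length_eq_dist a b
    exact hb ⟨w, by omega⟩
  have hnbr : ∀ u, ∃ v, H.Adj u v := by
    intro u
    have h1 : (H.neighborSet u).Nonempty := by
      rw [← Set.ncard_pos (Set.toFinite _), hdeg]
      exact hd1
    obtain ⟨v, hv⟩ := h1
    exact ⟨v, hv⟩
  obtain ⟨a', ha'⟩ := hnbr a
  obtain ⟨b', hb'⟩ := hnbr b
  have hda := SimpleGraph.dist_eq_one_iff_adj.mpr ha'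
  have hdb := SimpleGraph.dist_eq_one_iff_adj.mpr hb'
  have hdb' : H.dist b' b = 1 := by rw [SimpleGraph.dist_comm]; exact hdb
  let D : Data (W d M) := ⟨H, a, a', b, b', ha', hb',
    by rintro rfl; rw [SimpleGraph.dist_self] at hdist; omega,
    by rintro rfl; rw [hdb'] at hdist; omega,
    by rintro rfl; rw [hda] at hdist; omega,
    by
      rintro rfl
      have := hH.dist_triangle (u := a) (v := a') (w := b)
      rw [hda, hdb'] at this
      omega⟩
  have hfar := cov_far D (q := q) hH (L := l + 1) hdist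
  rw [Nat.add_sub_cancel] at hfar
  have hε2 : 2 ≤ (ε - η) * d := by nlinarith
  let φ : D.cov q ≃g D.cov q :=
    { toFun := shift 1
      invFun := shift (-1)
      left_inv := fun x => by simp [shift]
      right_inv := fun x => by simp [shift]
      map_rel_iff' := by
        intro x y
        exact shift_adj D 1 x y }
  have hφ : ∀ x, φ x = shift 1 x := fun _ => rfl
  refine ⟨W d M × ZMod q, inferInstance, D.cov q, φ, fun i => {x | x.2 = i}, hcardV,
    cov_connected D hcut, degree_cov D hdeg, ?_, ?_, ?_, ?_⟩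
  · intro v
    exact ⟨v.2, rfl, fun j hj => hj.symm⟩
  · intro i v
    rw [hφ]
    simp [shift]
  · intro i
    refine ⟨?_, cut_sheet D i⟩
    show {x : W d M × ZMod q | x.2 = i}.ncard = 2 * d * M
    have h1 : {x : W d M × ZMod q | x.2 = i} = (fun u => (u, i)) '' Set.univ := by
      ext ⟨u, j⟩
      simp [eq_comm]
    rw [h1, Set.ncard_image_of_injective _ (fun u u' h => (Prod.mk.inj h).1), Set.ncard_univ,
      Nat.card_eq_fintype_card, hcardU]
  · intro S _ I r m t F start hbd hsym
    have hstart : ∀ (k : ZMod q) x, start (shift k x) = start x := by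
      have h1 : ∀ (k : ℕ) x, start (shift (k : ZMod q) x) = start x := by
        intro k
        induction k with
        | zero => intro x; simp [shift]
        | succ k ih =>
          intro x
          have h2 : shift ((k + 1 : ℕ) : ZMod q) x = φ (shift (k : ZMod q) x) := by
            rw [hφ]
            simp [shift, add_assoc]
          rw [h2, hsym, ih]
      intro k x
      have := h1 k.val x
      rwa [ZMod.natCast_zmod_val] at this
    have hcardV' : ((Fintype.card (W d M × ZMod q) : ℕ) : ℝ) = 2 * d * q * M := by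
      rw [hcardV]
      push_cast
      ring
    have hlog : Real.log (Fintype.card (W d M × ZMod q) : ℕ) = Real.log n := by
      rw [hcardV, hn]
    have hL : m * (2 * t + 2 * r + 1) ≤ l := by
      rw [hl]
      apply Nat.le_floor
      rw [hlog] at hbd
      have h1 : (m : ℝ) * (2 * t + 2 * r + 1) ≤ 2 * (m * (t + r + 1)) := by
        have : (0 : ℝ) ≤ m := by positivity
        nlinarith
      push_cast
      refine h1.trans ?_
      calc 2 * ((m : ℝ) * (t + r + 1)) ≤ 2 * (Real.log n / (8 * Real.log (d + 1))) := by linarith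
        _ = Real.log n / (4 * Real.log (d + 1)) := by field_simp; ring
    have hexpand : ∀ σ : W d M × ZMod q → S, (∀ (k : ZMod q) x, σ (shift k x) = σ x) →
        (1 - ((sel I σ).ncard : ℝ) / Fintype.card (W d M × ZMod q) - ε) *
          (d * (sel I σ).ncard) ≤ cut (D.cov q) (sel I σ) := by
      intro σ hσ
      rw [hcardV']
      refine cov_expand (D := D) hd1 hM1 hexp hε2 (sel I σ) fun k x => ?_
      show σ (shift k x) ∈ I ↔ σ x ∈ I
      rw [hσ]
    refine ⟨?_, ?_⟩
    · obtain ⟨σ, h1, h2, h3⟩ := hfar.run F hL start hstart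
      exact ⟨σ, h2, h3, hexpand σ h1⟩
    · rintro rfl
      obtain ⟨σ, h1, h2, h3⟩ := hfar.run_size F I (show 2 * t + 2 * r ≤ l by omega) start hstart
      refine ⟨σ, h2, h3, ?_, hexpand σ h1⟩
      have h4 : ∀ τ : W d M × ZMod q → S,
          Relation.ReflTransGen (SizeStep F I t (D.cov q)) start τ →
          (sel I τ).ncard = (sel I start).ncard := by
        intro τ hτ
        induction hτ with
        | refl => rfl
        | tail _ h ih => exact h.2.trans ih
      exact h4 σ h2

end Pool.Agent.Q128.SSL
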