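import Mathlib

set_option autoImplicit false

/-! Random permutations: the number of elements of `A` which are mapped into `B`. -/

namespace Pool.Agent.Q128.SSL

open Finset

variable {M : ℕ}

/-- the number of permutations which map `T` into `B` -/
def nperm (B T : Finset (Fin M)) : ℕ :=
  (univ.filter fun p : Equiv.Perm (Fin M) => ∀ t ∈ T, p t ∈ B).card

theorem nperm_swap (B T : Finset (Fin M)) {x z : Fin M} (hx : x ∉ T) (hz : z ∉ T) :
    nperm B (insert z T) = nperm B (insert x T) := by
  unfold nperm
  refine card_bij (fun p _ => p * Equiv.swap x z) ?_ ?_ ?_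
  · intro p hp
    rw [mem_filter] at hp ⊢
    refine ⟨mem_univ _, fun t ht => ?_⟩
    rw [Equiv.Perm.mul_apply]
    rcases mem_insert.mp ht with rfl | ht'
    · rw [Equiv.swap_apply_left]
      exact hp.2 _ (mem_insert_self _ _)
    · rw [Equiv.swap_apply_of_ne_of_ne (by rintro rfl; exact hx ht') (by rintro rfl; exact hz ht')]
      exact hp.2 _ (mem_insert_of_mem ht')
  · intro p _ p' _ h
    exact mul_right_cancel h
  · intro p hp
    rw [mem_filter] at hp
    refine ⟨p * Equiv.swap x z, ?_, by rw [mul_assoc, Equiv.swap_mul_self, mul_one]⟩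
    rw [mem_filter]
    refine ⟨mem_univ _, fun t ht => ?_⟩
    rw [Equiv.Perm.mul_apply]
    rcases mem_insert.mp ht with rfl | ht'
    · rw [Equiv.swap_apply_right]
      exact hp.2 _ (mem_insert_self _ _)
    · rw [Equiv.swap_apply_of_ne_of_ne (by rintro rfl; exact hx ht') (by rintro rfl; exact hz ht')]
      exact hp.2 _ (mem_insert_of_mem ht')

theorem nperm_step (B T : Finset (Fin M)) {x : Fin M} (hx : x ∉ T) :
    M * nperm B (insert x T) ≤ B.card * nperm B T := by
  -- double counting of the pairs `(p, z)` with `z ∉ T` and `p z ∈ B`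
  have h1 : ∑ z ∈ Tᶜ, nperm B (insert z T) = (M - T.card) * nperm B (insert x T) := by
    rw [sum_congr rfl fun z hz => nperm_swap B T hx (mem_compl.mp hz), sum_const, smul_eq_mul,
      card_compl, Fintype.card_fin]
  have h2 : ∑ z ∈ Tᶜ, nperm B (insert z T) = (B.card - T.card) * nperm B T := by
    have h3 : ∀ z ∈ Tᶜ, nperm B (insert z T) =
        ∑ p ∈ univ.filter (fun p : Equiv.Perm (Fin M) => ∀ t ∈ T, p t ∈ B),
          if p z ∈ B then 1 else 0 := by
      intro z _
      unfold nperm
      rw [← card_filter, filter_filter]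
      congr 1
      ext p
      simp only [mem_filter, mem_univ, true_and, mem_insert, forall_eq_or_imp]
      tauto
    rw [sum_congr rfl h3, sum_comm]
    unfold nperm
    rw [mul_comm, ← smul_eq_mul, ← sum_const]
    refine sum_congr rfl fun p hp => ?_
    rw [mem_filter] at hp
    rw [← card_filter]
    have h4 : (Tᶜ.filter fun z => p z ∈ B) = (univ.filter fun z => p z ∈ B) \ T := by
      ext z
      simp only [mem_filter, mem_compl, mem_sdiff, mem_univ, true_and]
      tauto
    have h5 : T ⊆ univ.filter fun z => p z ∈ B := by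
      intro t ht
      rw [mem_filter]
      exact ⟨mem_univ _, hp.2 t ht⟩
    have h6 : (univ.filter fun z => p z ∈ B).card = B.card := by
      have : (univ.filter fun z => p z ∈ B) = B.map p.symm.toEmbedding := by
        ext z
        simp only [mem_filter, mem_univ, true_and, mem_map_equiv, Equiv.symm_symm]
      rw [this, card_map]
    rw [h4, card_sdiff_of_subset h5, h6]
  rw [h1] at h2
  have hk : T.card < M := by
    have : (insert x T).card ≤ M := by
      have := card_le_univ (insert x T)
      rwa [Fintype.card_fin] at this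
    rw [card_insert_of_notMem hx] at this
    omega
  have hB : B.card ≤ M := by
    have := card_le_univ B
    rwa [Fintype.card_fin] at this
  rcases Nat.eq_zero_or_pos (nperm B T) with h0 | h0
  · rw [h0, Nat.mul_zero] at h2
    rcases Nat.mul_eq_zero.mp h2 with h3 | h3
    · omega
    · rw [h3, h0]
      simp
  · rcases Nat.lt_or_ge B.card T.card with hlt | hge
    · rw [Nat.sub_eq_zero_of_le hlt.le, Nat.zero_mul] at h2
      rcases Nat.mul_eq_zero.mp h2 with h3 | h3
      · omega
      · rw [h3]
        simp
    · obtain ⟨a, ha⟩ : ∃ a, B.card = T.card + a := ⟨B.card - T.card, by omega⟩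
      obtain ⟨c, hc⟩ : ∃ c, M = T.card + a + c := ⟨M - (T.card + a), by omega⟩
      have e1 : M - T.card = a + c := by omega
      have e2 : B.card - T.card = a := by omega
      rw [e1, e2] at h2
      have hac : 0 < a + c := by omega
      refine Nat.le_of_mul_le_mul_left ?_ hac
      calc (a + c) * (M * nperm B (insert x T)) = M * ((a + c) * nperm B (insert x T)) := by ring
        _ = (M * a) * nperm B T := by rw [h2]; ring
        _ ≤ ((a + c) * B.card) * nperm B T := by
            refine Nat.mul_le_mul_right _ ?_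
            have e3 : M * a = (T.card + a + c) * a := congrArg (· * a) hc
            rw [e3, ha]
            nlinarith [Nat.zero_le (T.card * c)]
        _ = (a + c) * (B.card * nperm B T) := by ring

theorem nperm_le (hM : 1 ≤ M) (B T : Finset (Fin M)) :
    (nperm B T : ℝ) ≤ (M.factorial : ℝ) * ((B.card : ℝ) / M) ^ T.card := by
  have hM0 : (0 : ℝ) < M := by exact_mod_cast hM
  induction T using Finset.induction_on with
  | empty =>
    unfold nperm
    simp [Fintype.card_perm]
  | insert x T hx ih =>
    have h1 := nperm_step B T hx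
    have h2 : (M : ℝ) * nperm B (insert x T) ≤ B.card * nperm B T := by exact_mod_cast h1
    rw [card_insert_of_notMem hx, pow_succ]
    have h3 : (nperm B (insert x T) : ℝ) ≤ (B.card : ℝ) / M * nperm B T := by
      rw [div_mul_eq_mul_div, le_div_iff₀ hM0]
      linarith
    refine h3.trans ?_
    have h4 : (0 : ℝ) ≤ (B.card : ℝ) / M := by positivity
    nlinarith [mul_le_mul_of_nonneg_left ih h4]

/-- the number of elements of `A` which are mapped into `B` -/
def hit (A B : Finset (Fin M)) (p : Equiv.Perm (Fin M)) : ℕ := (A.filter fun x => p x ∈ B).card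

theorem mgf (hM : 1 ≤ M) (A B : Finset (Fin M)) {w : ℝ} (hw : 0 ≤ w) :
    ∑ p : Equiv.Perm (Fin M), (1 + w) ^ hit A B p ≤
      (M.factorial : ℝ) * Real.exp (w * (A.card * B.card) / M) := by
  have hM0 : (0 : ℝ) < M := by exact_mod_cast hM
  have h1 : ∀ p : Equiv.Perm (Fin M), (1 + w) ^ hit A B p =
      ∑ T ∈ A.powerset, if (∀ t ∈ T, p t ∈ B) then w ^ T.card else 0 := by
    intro p
    have h2 := Finset.sum_pow_mul_eq_add_pow w 1 (A.filter fun x => p x ∈ B)
    unfold hit
    rw [add_comm 1 w, ← h2, ← sum_filter]
    refine sum_congr ?_ fun T _ => by simp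
    ext T
    simp only [mem_powerset, mem_filter, subset_iff]
    constructor
    · intro h
      exact ⟨fun x hx => (h hx).1, fun x hx => (h hx).2⟩
    · rintro ⟨h, h'⟩ x hx
      exact ⟨h hx, h' x hx⟩
  rw [sum_congr rfl fun p _ => h1 p, sum_comm]
  have h3 : ∀ T ∈ A.powerset, ∑ p : Equiv.Perm (Fin M),
      (if (∀ t ∈ T, p t ∈ B) then w ^ T.card else 0) ≤
      (M.factorial : ℝ) * ((w * ((B.card : ℝ) / M)) ^ T.card * 1 ^ (A.card - T.card)) := by
    intro T _
    rw [← sum_filter, sum_const, nsmul_eq_mul]
    have h4 := nperm_le hM B T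
    unfold nperm at h4
    rw [mul_pow, one_pow, mul_one]
    have h5 : (0 : ℝ) ≤ w ^ T.card := by positivity
    nlinarith [mul_le_mul_of_nonneg_right h4 h5]
  refine (sum_le_sum h3).trans ?_
  rw [← mul_sum, Finset.sum_pow_mul_eq_add_pow]
  refine mul_le_mul_of_nonneg_left ?_ (by positivity)
  have h6 : w * ((B.card : ℝ) / M) + 1 ≤ Real.exp (w * ((B.card : ℝ) / M)) := Real.add_one_le_exp _
  have h7 : (0 : ℝ) ≤ w * ((B.card : ℝ) / M) + 1 := by positivity
  refine (pow_le_pow_left₀ h7 h6 _).trans (le_of_eq ?_)
  rw [← Real.exp_nat_mul]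
  congr 1
  field_simp

end Pool.Agent.Q128.SSL
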