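import Pool.Agent.Q128.SSL.RandDefs
import Pool.Agent.Q128.SSL.Main

set_option autoImplicit false
set_option linter.unusedSectionVars false

/-! Random sets with small covariances have trivial expansion. -/

namespace Pool.Agent.Q128.SSL

open Classical Finset
open Pool.Agent.TH912.LS (ball mem_ball ball_self ball_symm ball_trans ball_mono ball_adj SameView)

section fib

/-- counting a set of pairs by the second coordinate -/
theorem ncard_fib {β ι : Type} [Finite β] [Fintype ι] (S : Set (β × ι)) :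
    S.ncard = ∑ i, {b | (b, i) ∈ S}.ncard := by
  have : Fintype β := Fintype.ofFinite β
  have h1 : S.ncard = ∑ p : β × ι, if p ∈ S then 1 else 0 := by
    rw [Set.ncard_eq_toFinset_card', ← card_filter]
    congr 1
    ext p
    simp
  rw [h1, Fintype.sum_prod_type, sum_comm]
  refine sum_congr rfl fun i _ => ?_
  rw [Set.ncard_eq_toFinset_card', ← card_filter]
  congr 1
  ext b
  simp

variable {U : Type} [Finite U] (D : Data U) {q : ℕ} [Fact (1 < q)]

/-- the part of `S` in the sheet `i` -/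
def sheet (S : Set (U × ZMod q)) (i : ZMod q) : Set U := {u | (u, i) ∈ S}

theorem sum_sheet [NeZero q] (S : Set (U × ZMod q)) : ∑ i, (sheet S i).ncard = S.ncard :=
  (ncard_fib S).symm

theorem cut_sheets [NeZero q] (S : Set (U × ZMod q)) :
    ∑ i, cut D.H (sheet S i) ≤ cut (D.cov q) S + 2 * S.ncard := by
  let P : ZMod q → Set (U × U) := fun i =>
    {p : U × U | p.1 ∈ sheet S i ∧ p.2 ∉ sheet S i ∧ D.H.Adj p.1 p.2 ∧ ¬ D.Rem p.1 p.2}
  have h1 : ∀ i, cut D.H (sheet S i) ≤ (P i).ncard + 2 * (sheet S i).ncard := by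
    intro i
    have h2 : {p : U × U | p.1 ∈ sheet S i ∧ p.2 ∉ sheet S i ∧ D.H.Adj p.1 p.2} ⊆
        P i ∪ {p : U × U | p.1 ∈ sheet S i ∧ p.2 ∉ sheet S i ∧ D.Rem p.1 p.2} := by
      rintro p ⟨h1, h2, h3⟩
      by_cases h : D.Rem p.1 p.2
      · exact Or.inr ⟨h1, h2, h⟩
      · exact Or.inl ⟨h1, h2, h3, h⟩
    rcases Set.eq_empty_or_nonempty (sheet S i) with h0 | h0
    · have h3 : cut D.H (sheet S i) = 0 := by
        unfold cut
        rw [h0]
        simp
      omega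
    · have h3 := rem_le D (sheet S i)
      have h4 : 1 ≤ (sheet S i).ncard := (Set.ncard_pos (Set.toFinite _)).mpr h0
      unfold cut
      refine (Set.ncard_le_ncard h2 (Set.toFinite _)).trans ?_
      exact (Set.ncard_union_le _ _).trans (by omega)
  have h2 : ∑ i, (P i).ncard ≤ cut (D.cov q) S := by
    let Q : Set ((U × U) × ZMod q) := {z | z.1 ∈ P z.2}
    have h3 : ∑ i, (P i).ncard = Q.ncard := by
      rw [ncard_fib Q]
      rfl
    let f : (U × U) × ZMod q → (U × ZMod q) × (U × ZMod q) := fun z =>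
      ((z.1.1, z.2), (z.1.2, z.2))
    have hf : Function.Injective f := by
      rintro ⟨⟨u, v⟩, i⟩ ⟨⟨u', v'⟩, i'⟩ h
      simp only [f, Prod.mk.injEq] at h
      obtain ⟨⟨rfl, rfl⟩, rfl, _⟩ := h
      rfl
    have h4 : f '' Q ⊆ {p : (U × ZMod q) × (U × ZMod q) | p.1 ∈ S ∧ p.2 ∉ S ∧
        (D.cov q).Adj p.1 p.2} := by
      rintro _ ⟨⟨⟨u, v⟩, i⟩, ⟨h4, h5, h6, h7⟩, rfl⟩
      exact ⟨h4, h5, Or.inl ⟨rfl, h6, h7⟩⟩
    have h5 := Set.ncard_le_ncard h4 (Set.toFinite _)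
    rw [Set.ncard_image_of_injective _ hf, ← h3] at h5
    exact h5
  calc ∑ i, cut D.H (sheet S i) ≤ ∑ i, ((P i).ncard + 2 * (sheet S i).ncard) :=
        sum_le_sum fun i _ => h1 i
    _ = ∑ i, (P i).ncard + 2 * ∑ i, (sheet S i).ncard := by rw [sum_add_distrib, ← mul_sum]
    _ ≤ _ := by rw [sum_sheet]; omega

/-- the deviation of the sizes of the parts -/
noncomputable def dev [NeZero q] (S : Set (U × ZMod q)) : ℝ :=
  ∑ i, ((sheet S i).ncard : ℝ) ^ 2 - (S.ncard : ℝ) ^ 2 / q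

theorem dev_le [NeZero q] (S : Set (U × ZMod q)) (m : ℝ) :
    dev S ≤ ∑ i, (((sheet S i).ncard : ℝ) - m) ^ 2 := by
  have hq0 : (0 : ℝ) < q := by exact_mod_cast Nat.pos_of_ne_zero (NeZero.ne q)
  have h1 : ∑ i, ((sheet S i).ncard : ℝ) = S.ncard := by exact_mod_cast sum_sheet S
  have h2 : ∑ i, (((sheet S i).ncard : ℝ) - m) ^ 2 =
      ∑ i, ((sheet S i).ncard : ℝ) ^ 2 - 2 * m * S.ncard + q * m ^ 2 := by
    rw [← h1, mul_sum]
    simp_rw [sub_sq]
    rw [sum_add_distrib, sum_sub_distrib, sum_const, card_univ, ZMod.card, nsmul_eq_mul]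
    congr 2
    refine sum_congr rfl fun i _ => ?_
    ring
  rw [h2]
  unfold dev
  have h3 : 0 ≤ ((S.ncard : ℝ) - q * m) ^ 2 / q := by positivity
  have h4 : ((S.ncard : ℝ) - q * m) ^ 2 / q =
      (S.ncard : ℝ) ^ 2 / q - 2 * m * S.ncard + q * m ^ 2 := by
    field_simp
    ring
  linarith

theorem dev_nonneg [NeZero q] (S : Set (U × ZMod q)) : 0 ≤ dev S := by
  have hq0 : (0 : ℝ) < q := by exact_mod_cast Nat.pos_of_ne_zero (NeZero.ne q)
  have h1 : ∑ i, ((sheet S i).ncard : ℝ) = S.ncard := by exact_mod_cast sum_sheet S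
  have h2 : ∑ i, (((sheet S i).ncard : ℝ) - S.ncard / q) ^ 2 = dev S := by
    unfold dev
    simp_rw [sub_sq]
    rw [sum_add_distrib, sum_sub_distrib, sum_const, card_univ, ZMod.card, nsmul_eq_mul]
    have h3 : ∑ i, 2 * ((sheet S i).ncard : ℝ) * (S.ncard / q) =
        2 * (S.ncard : ℝ) ^ 2 / q := by
      rw [← sum_mul, ← mul_sum, h1]
      ring
    rw [h3]
    field_simp
    ring
  rw [← h2]
  exact sum_nonneg fun i _ => sq_nonneg _

theorem dev_sq [NeZero q] (S : Set (U × ZMod q)) : dev S ≤ (S.ncard : ℝ) ^ 2 := by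
  have hq0 : (0 : ℝ) < q := by exact_mod_cast Nat.pos_of_ne_zero (NeZero.ne q)
  have h1 : ∑ i, ((sheet S i).ncard : ℝ) = S.ncard := by exact_mod_cast sum_sheet S
  have h2 : ∑ i, ((sheet S i).ncard : ℝ) ^ 2 ≤ (∑ i, ((sheet S i).ncard : ℝ)) ^ 2 := by
    rw [sq (∑ i, ((sheet S i).ncard : ℝ)), sum_mul]
    refine sum_le_sum fun i _ => ?_
    rw [sq]
    exact mul_le_mul_of_nonneg_left (single_le_sum (f := fun i => ((sheet S i).ncard : ℝ))
      (fun j _ => Nat.cast_nonneg _) (mem_univ i)) (Nat.cast_nonneg _)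
  unfold dev
  have h3 : 0 ≤ (S.ncard : ℝ) ^ 2 / q := by positivity
  rw [h1] at h2
  linarith

/-- a set without expansion meets the sheets in parts of different sizes -/
theorem expand_of_dev [NeZero q] {d M : ℕ} {D : Data (W d M)} {ε : ℝ} (hd : 1 ≤ d)
    (hM : 1 ≤ M) (hε : 0 < ε) (hdε : 8 ≤ ε * d)
    (hexp : ∀ S : Set (W d M), (1 - (S.ncard : ℝ) / (2 * d * M) - ε / 2) * (d * S.ncard) ≤
      cut D.H S) (S : Set (W d M × ZMod q))
    (hS : cut (D.cov q) S < (1 - (S.ncard : ℝ) / (2 * d * q * M) - ε) * (d * S.ncard)) :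
    (ε * (2 * d * M) / 4) ^ 2 < dev S := by
  have hq0 : (0 : ℝ) < q := by exact_mod_cast Nat.pos_of_ne_zero (NeZero.ne q)
  have hd0 : (0 : ℝ) < d := by exact_mod_cast hd
  have hM0 : (0 : ℝ) < M := by exact_mod_cast hM
  obtain ⟨N, hN⟩ : ∃ N : ℝ, N = 2 * d * M := ⟨_, rfl⟩
  have hN0 : 0 < N := by rw [hN]; positivity
  obtain ⟨s, hs⟩ : ∃ s : ℝ, s = S.ncard := ⟨_, rfl⟩
  have hs0 : 0 ≤ s := by rw [hs]; positivity
  have h1 : ∑ i, ((sheet S i).ncard : ℝ) = s := by rw [hs]; exact_mod_cast sum_sheet S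
  have h2 : (∑ i, (cut D.H (sheet S i) : ℝ)) ≤ cut (D.cov q) S + 2 * s := by
    rw [hs]
    exact_mod_cast cut_sheets D S
  have h3 : ∑ i, (1 - ((sheet S i).ncard : ℝ) / (2 * d * M) - ε / 2) *
      (d * (sheet S i).ncard) ≤ ∑ i, (cut D.H (sheet S i) : ℝ) :=
    sum_le_sum fun i _ => hexp _
  have h4 : ∑ i, (1 - ((sheet S i).ncard : ℝ) / (2 * d * M) - ε / 2) *
      (d * (sheet S i).ncard) = (1 - ε / 2) * d * s - d / N * ∑ i, ((sheet S i).ncard : ℝ) ^ 2 := by
    rw [← h1, mul_sum, mul_sum, ← sum_sub_distrib]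
    refine sum_congr rfl fun i _ => ?_
    rw [hN]
    ring
  have h5 : (1 - (S.ncard : ℝ) / (2 * d * q * M) - ε) * (d * S.ncard) =
      (1 - ε) * d * s - d / N * (s ^ 2 / q) := by
    rw [← hs, hN]
    field_simp
    ring
  rw [h5] at hS
  rw [h4] at h3
  have h6 : dev S = ∑ i, ((sheet S i).ncard : ℝ) ^ 2 - s ^ 2 / q := by rw [hs]; rfl
  have h7 : ε / 2 * d * s - 2 * s < d / N * dev S := by
    rw [h6]
    have : d / N * (∑ i, ((sheet S i).ncard : ℝ) ^ 2 - s ^ 2 / q) =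
        d / N * ∑ i, ((sheet S i).ncard : ℝ) ^ 2 - d / N * (s ^ 2 / q) := by ring
    rw [this]
    linarith
  have h8 : ε / 4 * d * s ≤ ε / 2 * d * s - 2 * s := by nlinarith
  have h9 : ε / 4 * N * s < dev S := by
    have h10 : ε / 4 * d * s < d / N * dev S := by linarith
    have h11 : d / N * (ε / 4 * N * s) < d / N * dev S := by
      calc d / N * (ε / 4 * N * s) = ε / 4 * d * s := by field_simp
        _ < _ := h10
    exact lt_of_mul_lt_mul_left h11 (by positivity)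
  have h10 := dev_sq S
  rw [← hs] at h10
  have hs1 : 0 < s := by
    rcases hs0.lt_or_eq with h | h
    · exact h
    · exfalso
      rw [← h] at h9 h10
      have := dev_nonneg S
      norm_num at h9 h10
      linarith
  have h11 : ε / 4 * N < s := by
    have : ε / 4 * N * s < s * s := by nlinarith
    exact lt_of_mul_lt_mul_right this hs0
  rw [← hN]
  have h12 : ε / 4 * N * (ε / 4 * N) < ε / 4 * N * s := by
    apply mul_lt_mul_of_pos_left h11
    positivity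
  calc (ε * N / 4) ^ 2 = ε / 4 * N * (ε / 4 * N) := by ring
    _ < _ := h12.trans h9

end fib

section prob

variable {Ω V : Type} [Fintype Ω] {w : Ω → ℝ}

theorem pr_nonneg (hw : IsDistribution w) (P : Ω → Prop) : 0 ≤ pr w P :=
  sum_nonneg fun ω _ => by
    split_ifs
    · exact hw.1 ω
    · exact le_rfl

theorem pr_le_one (hw : IsDistribution w) (P : Ω → Prop) : pr w P ≤ 1 := by
  rw [← hw.2]
  unfold pr
  refine sum_le_sum fun ω _ => ?_
  split_ifs
  · exact le_rfl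
  · exact hw.1 ω

theorem corr_le (hw : IsDistribution w) (S : Ω → Set V) (u v : V) : |corr w S u v| ≤ 1 := by
  unfold corr
  have h1 := pr_nonneg hw (fun ω => u ∈ S ω ∧ v ∈ S ω)
  have h2 := pr_le_one hw (fun ω => u ∈ S ω ∧ v ∈ S ω)
  have h3 := pr_nonneg hw (fun ω => u ∈ S ω)
  have h4 := pr_le_one hw (fun ω => u ∈ S ω)
  have h5 := pr_nonneg hw (fun ω => v ∈ S ω)
  have h6 := pr_le_one hw (fun ω => v ∈ S ω)
  rw [abs_le]
  constructor <;> nlinarith

theorem markov (hw : IsDistribution w) (X : Ω → ℝ) (hX : ∀ ω, 0 ≤ X ω) {a : ℝ} (ha : 0 < a)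
    (P : Ω → Prop) (hP : ∀ ω, P ω → a ≤ X ω) : pr w P ≤ (∑ ω, w ω * X ω) / a := by
  rw [le_div_iff₀ ha]
  unfold pr
  rw [sum_mul]
  refine sum_le_sum fun ω _ => ?_
  split_ifs with h
  · exact mul_le_mul_of_nonneg_left (hP ω h) (hw.1 ω)
  · rw [zero_mul]
    exact mul_nonneg (hw.1 ω) (hX ω)

/-- the second moment of the deviation of the number of elements of `S` over `T` -/
theorem second_moment (hw : IsDistribution w) {T : Type} [Fintype T] (f : T → V) (S : Ω → Set V) :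
    ∑ ω, w ω * (({t | f t ∈ S ω}.ncard : ℝ) - ∑ t, pr w (fun ω => f t ∈ S ω)) ^ 2 =
      ∑ t, ∑ t', corr w S (f t) (f t') := by
  have h1 : ∀ ω, ({t | f t ∈ S ω}.ncard : ℝ) = ∑ t, if f t ∈ S ω then (1 : ℝ) else 0 := by
    intro ω
    rw [Set.ncard_eq_toFinset_card', Finset.sum_boole]
    congr 2
    ext t
    simp
  obtain ⟨m, hm⟩ : ∃ m : ℝ, m = ∑ t, pr w (fun ω => f t ∈ S ω) := ⟨_, rfl⟩
  rw [← hm]
  have h2 : ∑ ω, w ω * ({t | f t ∈ S ω}.ncard : ℝ) = m := by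
    rw [hm]
    unfold pr
    rw [sum_comm]
    refine sum_congr rfl fun ω _ => ?_
    rw [h1, mul_sum]
    refine sum_congr rfl fun t _ => ?_
    split_ifs <;> ring
  have h3 : ∑ ω, w ω * ({t | f t ∈ S ω}.ncard : ℝ) ^ 2 =
      ∑ t, ∑ t', pr w (fun ω => f t ∈ S ω ∧ f t' ∈ S ω) := by
    have h4 : ∀ t, ∑ t', pr w (fun ω => f t ∈ S ω ∧ f t' ∈ S ω) =
        ∑ ω, ∑ t', (if f t ∈ S ω ∧ f t' ∈ S ω then w ω else 0) := fun t => by
      unfold pr
      rw [Finset.sum_comm]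
      refine sum_congr rfl fun ω _ => sum_congr rfl fun t' _ => ?_
      by_cases e1 : f t ∈ S ω <;> by_cases e2 : f t' ∈ S ω <;> simp [e1, e2]
    rw [sum_congr rfl fun t _ => h4 t, sum_comm]
    refine sum_congr rfl fun ω _ => ?_
    rw [h1, sq, sum_mul_sum, mul_sum]
    refine sum_congr rfl fun t _ => ?_
    rw [mul_sum]
    refine sum_congr rfl fun t' _ => ?_
    by_cases e1 : f t ∈ S ω <;> by_cases e2 : f t' ∈ S ω <;> simp [e1, e2]
  have h4 : ∑ ω, w ω * (({t | f t ∈ S ω}.ncard : ℝ) - m) ^ 2 =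
      ∑ ω, w ω * ({t | f t ∈ S ω}.ncard : ℝ) ^ 2 -
        2 * m * ∑ ω, w ω * ({t | f t ∈ S ω}.ncard : ℝ) + m ^ 2 * ∑ ω, w ω := by
    rw [mul_sum, mul_sum, ← sum_sub_distrib, ← sum_add_distrib]
    refine sum_congr rfl fun ω _ => ?_
    ring
  rw [h4, h3, h2, hw.2]
  unfold corr
  simp_rw [sum_sub_distrib]
  have h5 : ∑ t, ∑ t', pr w (fun ω => f t ∈ S ω) * pr w (fun ω => f t' ∈ S ω) = m ^ 2 := by
    rw [hm, sq, sum_mul_sum]
  rw [h5]
  ring

end prob

end Pool.Agent.Q128.SSL
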