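import Pool.Agent.Q128.SSL.Defs

set_option autoImplicit false

/-! Random sets of vertices and randomised local algorithms: definitions. -/

namespace Pool.Agent.Q128.SSL

open Classical
open Pool.Agent.TH912.LS (ball SameView)

/-- `w` is a probability distribution on the finite set `Ω`. -/
def IsDistribution {Ω : Type} [Fintype Ω] (w : Ω → ℝ) : Prop :=
  (∀ ω, 0 ≤ w ω) ∧ ∑ ω, w ω = 1

/-- The probability of the event `P`. -/
noncomputable def pr {Ω : Type} [Fintype Ω] (w : Ω → ℝ) (P : Ω → Prop) : ℝ :=
  ∑ ω, if P ω then w ω else 0

/-- The covariance of the events that `u` and `v` belong to the random set `S`. -/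
noncomputable def corr {Ω V : Type} [Fintype Ω] (w : Ω → ℝ) (S : Ω → Set V) (u v : V) : ℝ :=
  pr w (fun ω => u ∈ S ω ∧ v ∈ S ω) - pr w (fun ω => u ∈ S ω) * pr w (fun ω => v ∈ S ω)

/-- A local algorithm of radius `r` with seeds from `A`: every vertex has a seed, and whether it
belongs to the output depends only on the isomorphism type of its radius-`r` view, seeds
included. -/
structure LocalRule (A : Type) (r : ℕ) where
  out : {V : Type} → SimpleGraph V → (V → A) → V → Prop
  invariant : ∀ {V V' : Type} (G : SimpleGraph V) (ω : V → A) (v : V)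
    (G' : SimpleGraph V') (ω' : V' → A) (v' : V'),
    SameView r G ω v G' ω' v' → (out G ω v ↔ out G' ω' v')

/-- The distribution of independent seeds with distribution `p`. -/
noncomputable def seeds {A V : Type} [Fintype V] (p : A → ℝ) (ω : V → A) : ℝ := ∏ v, p (ω v)

end Pool.Agent.Q128.SSL
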