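import Pool.Agent.Q128.SSL.RandMain

set_option autoImplicit false
set_option linter.unusedSectionVars false

/-! Randomised local algorithms do not find small sets with small expansion. -/

namespace Pool.Agent.Q128.SSL

open Classical Finset
open Pool.Agent.TH912.LS (ball mem_ball ball_self ball_symm ball_trans ball_mono ball_adj)

/-- the base graphs -/
theorem exists_data {ε : ℝ} (hε : 0 < ε) (hε1 : ε ≤ 1 / 2) {d : ℕ} (hd : 64 / ε ^ 2 ≤ d) {M : ℕ}
    (hM : d + 1 ≤ M) :
    ∃ D : Data (W d M), (∀ u, (D.H.neighborSet u).ncard = d) ∧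
      (∀ S : Set (W d M), (1 - (S.ncard : ℝ) / (2 * d * M) - ε / 2) * (d * S.ncard) ≤
        cut D.H S) ∧
      ∀ K : Set (W d M), K.Nonempty → Kᶜ.Nonempty → 2 < cut D.H K := by
  have hdη : 16 ≤ (d : ℝ) * (ε / 2) ^ 2 := by
    rw [div_le_iff₀ (by positivity)] at hd
    nlinarith
  have hdη1 : 64 ≤ (d : ℝ) * (ε / 2) := by
    have : (d : ℝ) * (ε / 2) ^ 2 ≤ (d : ℝ) * (ε / 2) * (1 / 4) := by
      have : (0 : ℝ) ≤ d * (ε / 2) := by positivity
      nlinarith
    linarith
  have hd256 : (256 : ℝ) ≤ d := by nlinarith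
  have hd1 : 1 ≤ d := by
    have : (1 : ℝ) ≤ d := by linarith
    exact_mod_cast this
  have hd0 : (0 : ℝ) < d := by linarith
  have hM1 : 1 ≤ M := by omega
  have hM0 : (0 : ℝ) < M := by exact_mod_cast hM1
  obtain ⟨H, hdeg, hexp⟩ := exists_base hM1 hd1 (show 0 < ε / 2 by linarith) (by linarith) hdη
  have hcardU : Fintype.card (W d M) = 2 * d * M := by
    rw [Fintype.card_sum, Fintype.card_prod, Fintype.card_fin, Fintype.card_fin]
    ring
  have hcut : ∀ K : Set (W d M), K.Nonempty → Kᶜ.Nonempty → 2 < cut H K := by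
    have h1 : ∀ K : Set (W d M), K.Nonempty → 2 * K.ncard ≤ 2 * d * M → 2 < cut H K := by
      intro K hK hK2
      have h2 := hexp K
      have h3 : (1 : ℝ) ≤ K.ncard := by
        have : 1 ≤ K.ncard := (Set.ncard_pos (Set.toFinite _)).mpr hK
        exact_mod_cast this
      have h4 : (K.ncard : ℝ) / (2 * d * M) ≤ 1 / 2 := by
        rw [div_le_iff₀ (by positivity)]
        have : (2 : ℝ) * K.ncard ≤ 2 * d * M := by exact_mod_cast hK2
        linarith
      have h5 : (1 / 4 : ℝ) * (d * K.ncard) ≤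
          (1 - (K.ncard : ℝ) / (2 * d * M) - ε / 2) * (d * K.ncard) :=
        mul_le_mul_of_nonneg_right (by linarith) (by positivity)
      have h6 : (2 : ℝ) < cut H K := by nlinarith
      exact_mod_cast h6
    intro K hK hK'
    by_cases h : 2 * K.ncard ≤ 2 * d * M
    · exact h1 K hK h
    · rw [← cut_compl]
      apply h1 _ hK'
      have h2 := Set.ncard_add_ncard_compl K
      rw [Nat.card_eq_fintype_card, hcardU] at h2
      omega
  have hne : Nonempty (W d M) := ⟨Sum.inl (⟨0, hd1⟩, ⟨0, hM1⟩)⟩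
  have hH : H.Connected := connected_of_cut fun K h1 h2 => by
    have := hcut K h1 h2
    omega
  have hsmall : (d + 1) ^ 2 < 2 * d * M := by
    calc (d + 1) ^ 2 = (d + 1) * (d + 1) := by ring
      _ < (2 * d) * (d + 1) := by
          apply Nat.mul_lt_mul_of_pos_right _ (by omega)
          have : (1 : ℝ) < d := by linarith
          have : 1 < d := by exact_mod_cast this
          omega
      _ ≤ 2 * d * M := Nat.mul_le_mul_left _ hM
  obtain ⟨a⟩ := hne
  obtain ⟨b, hb⟩ : ∃ b, b ∉ ball H a 2 := by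
    by_contra hcon
    push Not at hcon
    have h1 : ball H a 2 = Set.univ := Set.eq_univ_of_forall hcon
    have h2 := ncard_ball hdeg a 2
    rw [h1, Set.ncard_univ, Nat.card_eq_fintype_card, hcardU] at h2
    omega
  have hdist : 3 ≤ H.dist a b := by
    by_contra hcon
    push Not at hcon
    obtain ⟨w, hw⟩ := hH.exists_walk_length_eq_dist a b
    exact hb ⟨w, by omega⟩
  have hnbr : ∀ u, ∃ v, H.Adj u v := by
    intro u
    have h1 : (H.neighborSet u).Nonempty := by
      rw [← Set.ncard_pos (Set.toFinite _), hdeg]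
      exact hd1
    obtain ⟨v, hv⟩ := h1
    exact ⟨v, hv⟩
  obtain ⟨a', ha'⟩ := hnbr a
  obtain ⟨b', hb'⟩ := hnbr b
  have hda := SimpleGraph.dist_eq_one_iff_adj.mpr ha'
  have hdb := SimpleGraph.dist_eq_one_iff_adj.mpr hb'
  have hdb' : H.dist b' b = 1 := by rw [SimpleGraph.dist_comm]; exact hdb
  refine ⟨⟨H, a, a', b, b', ha', hb',
    by rintro rfl; rw [SimpleGraph.dist_self] at hdist; omega,
    by rintro rfl; rw [hdb'] at hdist; omega,
    by rintro rfl; rw [hda] at hdist; omega,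
    by
      rintro rfl
      have := hH.dist_triangle (u := a) (v := a') (w := b)
      rw [hda, hdb'] at this
      omega⟩, hdeg, hexp, hcut⟩

theorem algebra_aux {a ε N X Y : ℝ} (h : X ≤ N * Y) (hN : 0 < N) (hε : 0 < ε) :
    16 * a ^ 2 / (ε ^ 2 * N ^ 2) * X ≤ 16 * a ^ 2 * Y / (ε ^ 2 * N) := by
  have h1 : 16 * a ^ 2 / (ε ^ 2 * N ^ 2) * X ≤ 16 * a ^ 2 / (ε ^ 2 * N ^ 2) * (N * Y) :=
    mul_le_mul_of_nonneg_left h (by positivity)
  refine h1.trans (le_of_eq ?_)
  field_simp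

/-- from general random sets to local algorithms -/
theorem local_of_gen {V : Type} [Fintype V] {G : SimpleGraph V} (φ : G ≃g G) {d q : ℕ} {ε : ℝ}
    (hε : 0 < ε) (hV : 0 < Fintype.card V) (hdeg : ∀ v, (G.neighborSet v).ncard = d)
    (hgen : ∀ (Ω : Type) [Fintype Ω] (w : Ω → ℝ) (S : Ω → Set V), IsDistribution w →
        (∀ v, pr w (fun ω => φ v ∈ S ω) = pr w (fun ω => v ∈ S ω)) →
        pr w (fun ω => (cut G (S ω) : ℝ) <
          (1 - ((S ω).ncard : ℝ) / Fintype.card V - ε) * (d * (S ω).ncard)) ≤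
          16 * q ^ 2 / (ε ^ 2 * (Fintype.card V : ℝ) ^ 2) * ∑ u, ∑ v, |corr w S u v|)
    (A : Type) [Fintype A] (p : A → ℝ) (r : ℕ) (R : LocalRule A r) (hp : IsDistribution p) :
    pr (seeds p) (fun ω => (cut G {v | R.out G ω v} : ℝ) <
      (1 - ({v | R.out G ω v}.ncard : ℝ) / Fintype.card V - ε) *
        (d * {v | R.out G ω v}.ncard)) ≤
      16 * q ^ 2 * (d + 1) ^ (2 * r) / (ε ^ 2 * Fintype.card V) := by
  have h1 := hgen _ (seeds p) (fun ω => {v | R.out G ω v}) (seeds_dist hp)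
    (fun v => out_aut R G φ v)
  exact h1.trans (algebra_aux (corr_sum R G hdeg hp) (by exact_mod_cast hV) hε)

theorem rand_final (q : ℕ) (hq : 2 ≤ q) (ε : ℝ) (hε : 0 < ε) (hε1 : ε ≤ 1 / 2) (d : ℕ)
    (hd : 64 / ε ^ 2 ≤ d) (M : ℕ) (hM : d + 1 ≤ M) :
    ∃ (V : Type) (_ : Fintype V) (G : SimpleGraph V) (φ : G ≃g G) (C : ZMod q → Set V),
      Fintype.card V = 2 * d * q * M ∧ G.Connected ∧ (∀ v, (G.neighborSet v).ncard = d) ∧
      (∀ v, ∃! i, v ∈ C i) ∧ (∀ i v, φ v ∈ C (i + 1) ↔ v ∈ C i) ∧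
      (∀ i, (C i).ncard = 2 * d * M ∧ cut G (C i) ≤ 4) ∧
      (∀ (Ω : Type) [Fintype Ω] (w : Ω → ℝ) (S : Ω → Set V), IsDistribution w →
        (∀ v, pr w (fun ω => φ v ∈ S ω) = pr w (fun ω => v ∈ S ω)) →
        pr w (fun ω => (cut G (S ω) : ℝ) <
          (1 - ((S ω).ncard : ℝ) / Fintype.card V - ε) * (d * (S ω).ncard)) ≤
          16 * q ^ 2 / (ε ^ 2 * (Fintype.card V : ℝ) ^ 2) * ∑ u, ∑ v, |corr w S u v|) ∧
      ∀ (A : Type) [Fintype A] (p : A → ℝ) (r : ℕ) (R : LocalRule A r), IsDistribution p →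
        pr (seeds p) (fun ω => (cut G {v | R.out G ω v} : ℝ) <
          (1 - ({v | R.out G ω v}.ncard : ℝ) / Fintype.card V - ε) *
            (d * {v | R.out G ω v}.ncard)) ≤
          16 * q ^ 2 * (d + 1) ^ (2 * r) / (ε ^ 2 * Fintype.card V) := by
  have : Fact (1 < q) := ⟨by omega⟩
  have : NeZero q := ⟨by omega⟩
  have hq0 : (0 : ℝ) < q := by exact_mod_cast (show 0 < q by omega)
  obtain ⟨D, hdeg, hexp, hcut⟩ := exists_data hε hε1 hd hM
  have hdε : 64 ≤ ε * d * ε := by
    rw [div_le_iff₀ (by positivity)] at hd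
    nlinarith
  have hdε1 : 8 ≤ ε * d := by
    have : (0 : ℝ) ≤ ε * d := by positivity
    nlinarith
  have hd1 : 1 ≤ d := by
    rcases Nat.eq_zero_or_pos d with h | h
    · subst h
      norm_num at hdε
    · exact h
  have hM1 : 1 ≤ M := by omega
  have hd0 : (0 : ℝ) < d := by exact_mod_cast hd1
  have hM0 : (0 : ℝ) < M := by exact_mod_cast hM1
  have hcardU : Fintype.card (W d M) = 2 * d * M := by
    rw [Fintype.card_sum, Fintype.card_prod, Fintype.card_fin, Fintype.card_fin]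
    ring
  have hcardV : Fintype.card (W d M × ZMod q) = 2 * d * q * M := by
    rw [Fintype.card_prod, hcardU, ZMod.card]
    ring
  have hcardV' : ((Fintype.card (W d M × ZMod q) : ℕ) : ℝ) = 2 * d * q * M := by
    rw [hcardV]
    push_cast
    ring
  let φ : D.cov q ≃g D.cov q :=
    { toFun := shift 1
      invFun := shift (-1)
      left_inv := fun x => by simp [shift]
      right_inv := fun x => by simp [shift]
      map_rel_iff' := by
        intro x y
        exact shift_adj D 1 x y }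
  have hφ : ∀ x, φ x = shift 1 x := fun _ => rfl
  have hgen : ∀ (Ω : Type) [Fintype Ω] (w : Ω → ℝ) (S : Ω → Set (W d M × ZMod q)),
      IsDistribution w →
      (∀ v, pr w (fun ω => φ v ∈ S ω) = pr w (fun ω => v ∈ S ω)) →
      pr w (fun ω => (cut (D.cov q) (S ω) : ℝ) <
        (1 - ((S ω).ncard : ℝ) / Fintype.card (W d M × ZMod q) - ε) * (d * (S ω).ncard)) ≤
        16 * q ^ 2 / (ε ^ 2 * (Fintype.card (W d M × ZMod q) : ℝ) ^ 2) *
          ∑ u, ∑ v, |corr w S u v| := by
    intro Ω _ w S hw hinv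
    rw [hcardV']
    exact rand_cover hd1 hM1 hε hdε1 hexp hw S hinv
  refine ⟨W d M × ZMod q, inferInstance, D.cov q, φ, fun i => {x | x.2 = i}, hcardV,
    cov_connected D hcut, degree_cov D hdeg, ?_, ?_, ?_, hgen, ?_⟩
  · intro v
    exact ⟨v.2, rfl, fun j hj => hj.symm⟩
  · intro i v
    rw [hφ]
    simp [shift]
  · intro i
    refine ⟨?_, cut_sheet D i⟩
    show {x : W d M × ZMod q | x.2 = i}.ncard = 2 * d * M
    have h1 : {x : W d M × ZMod q | x.2 = i} = (fun u => (u, i)) '' Set.univ := by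
      ext ⟨u, j⟩
      simp [eq_comm]
    rw [h1, Set.ncard_image_of_injective _ (fun u u' h => (Prod.mk.inj h).1), Set.ncard_univ,
      Nat.card_eq_fintype_card, hcardU]
  · exact local_of_gen φ hε (by rw [hcardV]; positivity) (degree_cov D hdeg) hgen

end Pool.Agent.Q128.SSL
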