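import Pool.Agent.Q128.SSL.Rand

set_option autoImplicit false
set_option linter.unusedSectionVars false

/-! Random sets with small covariances, and randomised local algorithms. -/

namespace Pool.Agent.Q128.SSL

open Classical Finset
open Pool.Agent.TH912.LS (ball mem_ball ball_self ball_symm ball_trans ball_mono ball_adj SameView)

section main

variable {Ω : Type} [Fintype Ω] {w : Ω → ℝ} {q : ℕ} [Fact (1 < q)] [NeZero q]

theorem rand_cover {d M : ℕ} {D : Data (W d M)} {ε : ℝ} (hd : 1 ≤ d) (hM : 1 ≤ M) (hε : 0 < ε)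
    (hdε : 8 ≤ ε * d)
    (hexp : ∀ S : Set (W d M), (1 - (S.ncard : ℝ) / (2 * d * M) - ε / 2) * (d * S.ncard) ≤
      cut D.H S) (hw : IsDistribution w) (S : Ω → Set (W d M × ZMod q))
    (hinv : ∀ v, pr w (fun ω => shift 1 v ∈ S ω) = pr w (fun ω => v ∈ S ω)) :
    pr w (fun ω => (cut (D.cov q) (S ω) : ℝ) <
        (1 - ((S ω).ncard : ℝ) / (2 * d * q * M) - ε) * (d * (S ω).ncard)) ≤
      16 * q ^ 2 / (ε ^ 2 * (2 * d * q * M) ^ 2) * ∑ u, ∑ v, |corr w S u v| := by
  have hq0 : (0 : ℝ) < q := by exact_mod_cast Nat.pos_of_ne_zero (NeZero.ne q)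
  have hd0 : (0 : ℝ) < d := by exact_mod_cast hd
  have hM0 : (0 : ℝ) < M := by exact_mod_cast hM
  have h1 := markov hw (fun ω => dev (S ω)) (fun ω => dev_nonneg _)
    (show 0 < (ε * (2 * d * M) / 4) ^ 2 by positivity)
    (fun ω => (cut (D.cov q) (S ω) : ℝ) <
        (1 - ((S ω).ncard : ℝ) / (2 * d * q * M) - ε) * (d * (S ω).ncard))
    (fun ω h => (expand_of_dev hd hM hε hdε hexp (S ω) h).le)
  refine h1.trans ?_
  rw [div_le_iff₀ (by positivity)]
  have h2 : 16 * (q : ℝ) ^ 2 / (ε ^ 2 * (2 * d * q * M) ^ 2) * (∑ u, ∑ v, |corr w S u v|) *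
      (ε * (2 * d * M) / 4) ^ 2 = ∑ u, ∑ v, |corr w S u v| := by
    field_simp
    ring
  rw [h2]
  -- the expectations of the sizes of the parts are equal
  have h3 : ∀ (k : ℕ) v, pr w (fun ω => shift (k : ZMod q) v ∈ S ω) = pr w (fun ω => v ∈ S ω) := by
    intro k
    induction k with
    | zero => intro v; simp [shift]
    | succ k ih =>
      intro v
      have h4 : shift ((k + 1 : ℕ) : ZMod q) v = shift 1 (shift (k : ZMod q) v) := by
        simp [shift, add_assoc]
      rw [h4, hinv, ih]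
  have h4 : ∀ (i : ZMod q) (u : W d M), pr w (fun ω => (u, i) ∈ S ω) =
      pr w (fun ω => (u, (0 : ZMod q)) ∈ S ω) := by
    intro i u
    have := h3 i.val (u, 0)
    rw [ZMod.natCast_zmod_val] at this
    simp only [shift, zero_add] at this
    exact this
  obtain ⟨m, hm⟩ : ∃ m : ℝ, m = ∑ u : W d M, pr w (fun ω => (u, (0 : ZMod q)) ∈ S ω) := ⟨_, rfl⟩
  have h5 : ∀ i : ZMod q, m = ∑ u : W d M, pr w (fun ω => (u, i) ∈ S ω) := by
    intro i
    rw [hm]
    exact sum_congr rfl fun u _ => (h4 i u).symm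
  calc ∑ ω, w ω * dev (S ω) ≤ ∑ ω, w ω * ∑ i, (((sheet (S ω) i).ncard : ℝ) - m) ^ 2 :=
        sum_le_sum fun ω _ => mul_le_mul_of_nonneg_left (dev_le (S ω) m) (hw.1 ω)
    _ = ∑ i, ∑ ω, w ω * (((sheet (S ω) i).ncard : ℝ) - m) ^ 2 := by
        rw [sum_comm]
        refine sum_congr rfl fun ω _ => ?_
        rw [mul_sum]
    _ = ∑ i : ZMod q, ∑ u, ∑ v, corr w S (u, i) (v, i) := by
        refine sum_congr rfl fun i _ => ?_
        rw [h5 i]
        exact second_moment hw (fun u : W d M => (u, i)) S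
    _ ≤ ∑ i : ZMod q, ∑ u, ∑ v, |corr w S (u, i) (v, i)| :=
        sum_le_sum fun i _ => sum_le_sum fun u _ => sum_le_sum fun v _ => le_abs_self _
    _ ≤ ∑ i : ZMod q, ∑ u : W d M, ∑ y : W d M × ZMod q, |corr w S (u, i) y| := by
        refine sum_le_sum fun i _ => sum_le_sum fun u _ => ?_
        rw [Fintype.sum_prod_type]
        refine sum_le_sum fun v _ => ?_
        exact single_le_sum (f := fun j : ZMod q => |corr w S (u, i) (v, j)|)
          (fun j _ => abs_nonneg _) (mem_univ i)
    _ = ∑ x, ∑ y, |corr w S x y| := by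
        rw [Fintype.sum_prod_type (f := fun x : W d M × ZMod q => ∑ y, |corr w S x y|), sum_comm]

end main

section localrule

variable {A V : Type} [Fintype A] [Fintype V]

theorem seeds_dist {p : A → ℝ} (hp : IsDistribution p) :
    IsDistribution (seeds (V := V) p) := by
  refine ⟨fun ω => prod_nonneg fun v _ => hp.1 _, ?_⟩
  have h := Finset.prod_univ_sum (fun _ : V => (univ : Finset A)) (fun _ a => p a)
  rw [Fintype.piFinset_univ] at h
  unfold seeds
  rw [← h]
  simp [hp.2]

/-- events which depend on disjoint sets of seeds are independent -/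
theorem indep {p : A → ℝ} (hp : IsDistribution p) {B C : Set V} (hBC : ∀ v, v ∈ B → v ∉ C)
    {E F : (V → A) → Prop} (hE : ∀ ω ω', (∀ v ∈ B, ω v = ω' v) → (E ω ↔ E ω'))
    (hF : ∀ ω ω', (∀ v ∈ C, ω v = ω' v) → (F ω ↔ F ω')) :
    pr (seeds p) (fun ω => E ω ∧ F ω) = pr (seeds p) E * pr (seeds p) F := by
  have hone := (seeds_dist (V := V) hp).2
  -- exchange the seeds in `B`
  let ψ : (V → A) × (V → A) → (V → A) × (V → A) := fun z =>
    (fun v => if v ∈ B then z.1 v else z.2 v, fun v => if v ∈ B then z.2 v else z.1 v)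
  have hψ : Function.Involutive ψ := by
    rintro ⟨a, b⟩
    simp only [ψ, Prod.mk.injEq]
    constructor <;> funext v <;> by_cases h : v ∈ B <;> simp [h]
  have h1 : pr (seeds p) E * pr (seeds p) F =
      ∑ z : (V → A) × (V → A), (if E z.1 then seeds p z.1 else 0) *
        (if F z.2 then seeds p z.2 else 0) := by
    unfold pr
    rw [sum_mul_sum, Fintype.sum_prod_type]
  have h2 : pr (seeds p) (fun ω => E ω ∧ F ω) =
      ∑ z : (V → A) × (V → A), (if E z.1 ∧ F z.1 then seeds p z.1 else 0) * seeds p z.2 := by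
    unfold pr
    rw [Fintype.sum_prod_type]
    refine sum_congr rfl fun ω _ => ?_
    have h3 := mul_sum (univ : Finset (V → A)) (seeds p) (if E ω ∧ F ω then seeds p ω else 0)
    rw [hone, mul_one] at h3
    convert h3
  rw [h1, h2, ← Equiv.sum_comp hψ.toPerm]
  refine sum_congr rfl fun z _ => ?_
  have e1 : E (ψ z).1 ↔ E z.1 := hE _ _ fun v hv => by simp [ψ, hv]
  have e2 : F (ψ z).1 ↔ F z.2 := hF _ _ fun v hv => by
    have : v ∉ B := fun h => hBC v h hv
    simp [ψ, this]
  have e3 : seeds p (ψ z).1 * seeds p (ψ z).2 = seeds p z.1 * seeds p z.2 := by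
    unfold seeds
    rw [← prod_mul_distrib, ← prod_mul_distrib]
    refine prod_congr rfl fun v _ => ?_
    by_cases h : v ∈ B
    · simp [ψ, h]
    · simp [ψ, h, mul_comm]
  show (if E (ψ z).1 ∧ F (ψ z).1 then seeds p (ψ z).1 else 0) * seeds p (ψ z).2 = _
  simp only [e1, e2]
  by_cases e4 : E z.1 <;> by_cases e5 : F z.2
  · simp only [e4, e5, and_self, if_true, e3]
  · simp [e5]
  · simp [e4]
  · simp [e4]

/-- the views are the same if the seeds are -/
theorem out_congr {r : ℕ} (R : LocalRule A r) (G : SimpleGraph V) (v : V) (ω ω' : V → A)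
    (h : ∀ x ∈ ball G v r, ω x = ω' x) : R.out G ω v ↔ R.out G ω' v :=
  R.invariant _ _ _ _ _ _ ⟨Equiv.refl _, fun _ => Iff.rfl, fun _ _ => Iff.rfl, fun x => h x x.2⟩

/-- automorphisms preserve the distribution of the output -/
theorem out_aut {r : ℕ} (R : LocalRule A r) (G : SimpleGraph V) (φ : G ≃g G) {p : A → ℝ} (v : V) :
    pr (seeds p) (fun ω => R.out G ω (φ v)) = pr (seeds p) (fun ω => R.out G ω v) := by
  have h1 : ∀ ω : V → A, R.out G ω (φ v) ↔ R.out G (fun x => ω (φ x)) v := by
    intro ω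
    apply R.invariant
    have hb : ∀ x, x ∈ ball G (φ v) r → φ.symm x ∈ ball G v r := by
      rintro x ⟨a, ha⟩
      refine ⟨(a.map φ.symm.toHom).copy (by simp) rfl, ?_⟩
      rw [SimpleGraph.Walk.length_copy, SimpleGraph.Walk.length_map]
      exact ha
    have hb' : ∀ x, x ∈ ball G v r → φ x ∈ ball G (φ v) r := by
      rintro x ⟨a, ha⟩
      exact ⟨a.map φ.toHom, by rw [SimpleGraph.Walk.length_map]; exact ha⟩
    refine ⟨⟨fun x => ⟨φ.symm x, hb x x.2⟩, fun x => ⟨φ x, hb' x x.2⟩, ?_, ?_⟩, ?_, ?_, ?_⟩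
    · intro x
      exact Subtype.ext (φ.apply_symm_apply x)
    · intro x
      exact Subtype.ext (φ.symm_apply_apply x)
    · intro x
      show (x : V) = φ v ↔ φ.symm x = v
      constructor
      · intro h
        rw [h]
        exact φ.symm_apply_apply v
      · intro h
        have h2 := congrArg φ h
        rwa [φ.apply_symm_apply] at h2
    · intro x y
      exact φ.symm.map_adj_iff.symm
    · intro x
      show ω x = ω (φ (φ.symm x))
      rw [φ.apply_symm_apply]
  unfold pr
  have h2 : ∀ ω : V → A, (if R.out G ω (φ v) then seeds p ω else 0) =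
      (fun ω' => if R.out G ω' v then seeds p ω' else 0) (fun x => ω (φ x)) := by
    intro ω
    have h3 : seeds p (fun x => ω (φ x)) = seeds p ω := by
      unfold seeds
      exact Equiv.prod_comp φ.toEquiv (fun x => p (ω x))
    simp only [h1 ω, h3]
  rw [sum_congr rfl fun ω _ => h2 ω]
  exact Equiv.sum_comp (Equiv.arrowCongr φ.symm.toEquiv (Equiv.refl A))
    (fun ω' => if R.out G ω' v then seeds p ω' else 0)

/-- the sum of the covariances -/
theorem corr_sum {r d : ℕ} (R : LocalRule A r) (G : SimpleGraph V)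
    (hd : ∀ v, (G.neighborSet v).ncard = d) {p : A → ℝ} (hp : IsDistribution p) :
    ∑ u, ∑ v, |corr (seeds p) (fun ω => {v | R.out G ω v}) u v| ≤
      Fintype.card V * ((d : ℝ) + 1) ^ (2 * r) := by
  have h1 : ∀ u, ∑ v, |corr (seeds p) (fun ω => {v | R.out G ω v}) u v| ≤
      ((d : ℝ) + 1) ^ (2 * r) := by
    intro u
    have h2 : ∀ v, |corr (seeds p) (fun ω => {v | R.out G ω v}) u v| ≤
        if v ∈ ball G u (2 * r) then 1 else 0 := by
      intro v
      split_ifs with h
      · exact corr_le (seeds_dist hp) _ u v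
      · have h3 : corr (seeds p) (fun ω => {v | R.out G ω v}) u v = 0 := by
          unfold corr
          rw [sub_eq_zero]
          refine indep hp (B := ball G u r) (C := ball G v r) ?_ ?_ ?_
          · intro x hx hx'
            exact h (ball_mono (ball_trans hx (ball_symm hx')) (by omega))
          · intro ω ω' hω
            exact out_congr R G u ω ω' hω
          · intro ω ω' hω
            exact out_congr R G v ω ω' hω
        rw [h3, abs_zero]
    refine (sum_le_sum fun v _ => h2 v).trans ?_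
    rw [Finset.sum_boole]
    have h3 := ncard_ball hd u (2 * r)
    have h4 : (univ.filter fun v => v ∈ ball G u (2 * r)).card = (ball G u (2 * r)).ncard := by
      rw [Set.ncard_eq_toFinset_card']
      congr 1
      ext v
      simp
    rw [h4]
    exact_mod_cast h3
  refine (sum_le_sum fun u _ => h1 u).trans ?_
  rw [sum_const, card_univ, nsmul_eq_mul]

end localrule

end Pool.Agent.Q128.SSL
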